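import Pool.Agent.U20.TT.Tree

/-!
Reading a tiling from a branch which does not close.
-/

set_option autoImplicit false

namespace Pool.Agent.U20.TT

open Pool.Agent.R824.TT

variable {I : Sys} {Γ : List (Fml × Finset Nm)} {n k : ℕ}

/-- Two tiles at the same point are equal; the labels of the tiles and of the test fit. -/
theorem same_aux (c : Bool) {a b t t' : ℕ} (ha : a < 3) (hb : b < 3)
    (hf : ∀ f ∈ facts I, Av Γ f {(0, false)}) (ho : Op Γ k) (ht : t ∈ I.1) (ht' : t' ∈ I.1)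
    {X Y D E : Finset Nm} (h1 : Av Γ (tg c a b t) X) (h2 : Av Γ (tg c a b t') Y)
    (hD : Av Γ (de c a) D) (hE : Av Γ (de (!c) b) E)
    (b1 : Bal (X ∪ (E ∪ (D ∪ {(0, false)})))) (b2 : Bal (Y ∪ (E ∪ (D ∪ {(0, false)})))) :
    t = t' := by
  by_contra hne
  exact ho.nconj (hE.mp (hD.mp (hf _ (fmt c ha hb ht ht' hne)))) h1 h2 b1 b2

theorem de_next (hs : Sta I Γ n) (c : Bool) {i : ℕ} (hi : i + 1 ≤ n) :
    Av Γ (de c (nx (i % 3))) (LD c (i + 1)) := by
  rw [nx_mod]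
  exact hs.des c (i + 1) hi

theorem pt_next (hs : Sta I Γ n) (c : Bool) {i : ℕ} (hi : i + 1 ≤ n) :
    Av Γ (pt c (nx (i % 3))) (LX c (i + 1)) := by
  rw [nx_mod]
  exact hs.pts c (i + 1) hi

theorem nx_lt (a : ℕ) : nx a < 3 := Nat.mod_lt _ (by omega)

/-- The label of a cell. -/
def At (c : Bool) (i j : ℕ) (Z : Finset Nm) : Prop :=
  ∀ q, q ∈ Z ↔ q ∈ LX c i ∨ q ∈ LX (!c) j ∨ q = (0, false)

theorem edge (hs : Sta I Γ n) (ho : Op Γ k) (c : Bool) {i j t t' : ℕ} (hi : i < n)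
    (hj : j ≤ n) (hR : ∀ p ∈ rel I c, p.1 ∈ I.1 ∧ p.2 ∈ I.1) (ht : t ∈ I.1) (ht' : t' ∈ I.1)
    {Z Z' : Finset Nm} (hZ : At c i j Z) (hZ' : At c (i + 1) j Z')
    (h1 : Av Γ (tg c (i % 3) (j % 3) t) Z) (h2 : Av Γ (tg c (nx (i % 3)) (j % 3) t') Z') :
    (t, t') ∈ rel I c := by
  have ha : i % 3 < 3 := Nat.mod_lt _ (by omega)
  have hb : j % 3 < 3 := Nat.mod_lt _ (by omega)
  have hna : nx (i % 3) < 3 := nx_lt _
  have e := (hs.pts (!c) j hj).mp ((pt_next hs c hi).mp ((hs.pts c i hi.le).mp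
    (hs.fac _ (fme c ha hb))))
  have hzX := (hz c i).1
  have hB := memB c i
  have hA := memA (!c) j
  have hzF := hzF c (i + 2)
  rcases ho.bigOr e with h | ⟨f, hf, h⟩
  · exfalso
    have s : Γ ⊆ (jk c, LX (!c) j ∪ (LX c (i + 1) ∪ (LX c i ∪ {(0, false)}))) :: Γ :=
      fun e he => List.mem_cons_of_mem _ he
    have g := ((hs.ups c i hi).mono s).mp ((av_mem List.mem_cons_self).mp
      ((hs.fac _ (fmk c ha hb)).mono s))
    refine h.crash ((hs.des (!c) j hj).mono s) g (bal_of c (i + 2) (j + 1) ?_)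
    intro q
    rw [← hB q, ← hA q]
    simp only [Finset.mem_union, Finset.mem_singleton]
    by_cases hq : q = (0, false)
    · subst hq; simp [hzX]
    · tauto
  · obtain ⟨p, hp, rfl⟩ := List.mem_map.1 hf
    obtain ⟨hp1, hp2⟩ := hR p hp
    set Q := LX (!c) j ∪ (LX c (i + 1) ∪ (LX c i ∪ {(0, false)})) with hQ
    set Γ' := (Fml.conj (tg c (i % 3) (j % 3) p.1) (tg c (nx (i % 3)) (j % 3) p.2), Q) :: Γ
      with hΓ'
    have s : Γ ⊆ Γ' := fun e he => List.mem_cons_of_mem _ he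
    have hs' := hs.mono s
    obtain ⟨g1, g2⟩ := (av_mem (Γ := Γ') List.mem_cons_self).conj
    have e1 : p.1 = t := by
      refine same_aux c ha hb hs'.fac h hp1 ht g1 (h1.mono s)
        ((pt_next hs' c hi).mp ((hs'.ups c i hi).mp (hs'.fac _ (fm3 c ha))))
        (hs'.des (!c) j hj) (bal_of c (i + 2) (j + 1) ?_) (bal_of c (i + 2) (j + 1) ?_)
      · intro q
        rw [← hB q, ← hA q]
        simp only [hQ, Finset.mem_union, Finset.mem_singleton]
        by_cases hq : q = (0, false)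
        · subst hq; simp [hzX]
        · tauto
      · intro q
        rw [← hB q, ← hA q]
        simp only [Finset.mem_union, Finset.mem_singleton, hZ q]
        by_cases hq : q = (0, false)
        · subst hq; simp [hzX]
        · tauto
    have e2 : p.2 = t' := by
      refine same_aux c hna hb hs'.fac h hp2 ht' g2 (h2.mono s) (de_next hs' c hi)
        (hs'.des (!c) j hj) (bal_of c (i + 2) (j + 1) ?_) (bal_of c (i + 2) (j + 1) ?_)
      · intro q
        rw [← hB q, ← hA q, LD_succ]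
        simp only [hQ, Finset.mem_union, Finset.mem_singleton]
        by_cases hq : q = (0, false)
        · subst hq; simp [hzX]
        · tauto
      · intro q
        rw [← hB q, ← hA q, LD_succ]
        simp only [Finset.mem_union, Finset.mem_singleton, hZ' q]
        by_cases hq : q = (0, false)
        · subst hq; simp [hzX]
        · tauto
    rw [← e1, ← e2]
    exact hp

/-- The label of a cell, in the order of the facts. -/
def LZ (i j : ℕ) : Finset Nm := LX true j ∪ (LX false i ∪ {(0, false)})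

theorem at_false (i j : ℕ) : At false i j (LZ i j) := by
  intro q
  simp only [LZ, Finset.mem_union, Finset.mem_singleton]
  show _ ↔ q ∈ LX false i ∨ q ∈ LX true j ∨ q = (0, false)
  tauto

theorem at_true (i j : ℕ) : At true j i (LZ i j) := by
  intro q
  simp only [LZ, Finset.mem_union, Finset.mem_singleton]
  show _ ↔ q ∈ LX true j ∨ q ∈ LX false i ∨ q = (0, false)
  tauto

/-- The letter `nP` closes. -/
theorem close_nP (hs : Sta I Γ n) {i j : ℕ} (hi : i ≤ n) (hj : j ≤ n)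
    (h : Op ((nP, LZ i j) :: Γ) k) : False := by
  have s : Γ ⊆ (nP, LZ i j) :: Γ := fun e he => List.mem_cons_of_mem _ he
  have hs' := hs.mono s
  have g := (hs'.des false i hi).mp ((av_mem List.mem_cons_self).mp
    (hs'.fac _ (fmq (a := i % 3) (b := j % 3) (Nat.mod_lt _ (by omega))
      (Nat.mod_lt _ (by omega)))))
  refine h.crash (hs'.des true j hj) g (bal_of false (i + 1) (j + 1) ?_)
  intro q
  show _ ↔ q ∈ LF false (i + 1) ∨ q ∈ LF true (j + 1)
  rw [← memA false i q, ← memA true j q]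
  simp only [LZ, Finset.mem_union, Finset.mem_singleton]
  have := (hz false i).1
  by_cases hq : q = (0, false)
  · subst hq; simp [this]
  · tauto

theorem same (hs : Sta I Γ n) (ho : Op Γ k) {i j t t' : ℕ} (hi : i ≤ n) (hj : j ≤ n)
    (ht : t ∈ I.1) (ht' : t' ∈ I.1) (h1 : Av Γ (tl (i % 3) (j % 3) t) (LZ i j))
    (h2 : Av Γ (tl (i % 3) (j % 3) t') (LZ i j)) : t = t' := by
  have b : Bal (LZ i j ∪ (LD true j ∪ (LD false i ∪ {(0, false)}))) := by
    refine bal_of false (i + 1) (j + 1) ?_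
    intro q
    show _ ↔ q ∈ LF false (i + 1) ∨ q ∈ LF true (j + 1)
    rw [← memA false i q, ← memA true j q]
    simp only [LZ, Finset.mem_union, Finset.mem_singleton]
    have := (hz false i).1
    by_cases hq : q = (0, false)
    · subst hq; simp [this]
    · tauto
  exact same_aux false (Nat.mod_lt _ (by omega)) (Nat.mod_lt _ (by omega)) hs.fac ho ht ht'
    h1 h2 (hs.des false i hi) (hs.des true j hj) b b

/-- Choosing a tile for a cell. -/
theorem cell (hs : Sta I Γ n) (ho : Op Γ k) {i j : ℕ} (hi : i ≤ n) (hj : j ≤ n) :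
    ∃ t ∈ I.1, Op ((tl (i % 3) (j % 3) t, LZ i j) :: Γ) k := by
  have e := (hs.pts true j hj).mp ((hs.pts false i hi).mp
    (hs.fac _ (fmp (a := i % 3) (b := j % 3) (Nat.mod_lt _ (by omega))
      (Nat.mod_lt _ (by omega)))))
  rcases ho.bigOr e with h | ⟨f, hf, h⟩
  · exact (close_nP hs hi hj h).elim
  · obtain ⟨t, ht, rfl⟩ := List.mem_map.1 hf
    exact ⟨t, ht, h⟩

/-- Choosing tiles for a list of cells. -/
theorem cells (cs : List (ℕ × ℕ)) (hcs : ∀ p ∈ cs, p.1 ≤ n ∧ p.2 ≤ n) (hs : Sta I Γ n)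
    (ho : Op Γ k) : ∃ Γ', Γ ⊆ Γ' ∧ Op Γ' k ∧
      ∀ p ∈ cs, ∃ t ∈ I.1, Av Γ' (tl (p.1 % 3) (p.2 % 3) t) (LZ p.1 p.2) := by
  induction cs with
  | nil => exact ⟨Γ, fun _ h => h, ho, by simp⟩
  | cons p cs ih =>
    obtain ⟨Γ1, s1, o1, h1⟩ := ih (fun q hq => hcs q (List.mem_cons_of_mem _ hq))
    obtain ⟨hp1, hp2⟩ := hcs p List.mem_cons_self
    obtain ⟨t, ht, o2⟩ := cell (hs.mono s1) o1 hp1 hp2
    refine ⟨_, fun e he => List.mem_cons_of_mem _ (s1 he), o2, ?_⟩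
    intro q hq
    rcases List.mem_cons.1 hq with rfl | hq
    · exact ⟨t, ht, av_mem List.mem_cons_self⟩
    · obtain ⟨t', ht', h⟩ := h1 q hq
      exact ⟨t', ht', h.mono fun e he => List.mem_cons_of_mem _ he⟩

/-- column `0` -/
theorem col (hs : Sta I Γ n) (ho : Op Γ k) (hC : ∀ t ∈ I.2.1, t ∈ I.1) {j t : ℕ} (hj : j ≤ n)
    (ht : t ∈ I.1) (h1 : Av Γ (tl (0 % 3) (j % 3) t) (LZ 0 j)) : t ∈ I.2.1 := by
  have e := (hs.pts true j hj).mp ((hs.fls false).mp
    (hs.fac _ (fmz (b := j % 3) (Nat.mod_lt _ (by omega)))))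
  rcases ho.bigOr e with h | ⟨f, hf, h⟩
  · exact (close_nP hs (Nat.zero_le _) hj h).elim
  · obtain ⟨t', ht', rfl⟩ := List.mem_map.1 hf
    have s : Γ ⊆ (tl 0 (j % 3) t', LX true j ∪ (LX false 0 ∪ {(0, false)})) :: Γ :=
      fun e he => List.mem_cons_of_mem _ he
    have := same (hs.mono s) h (i := 0) (Nat.zero_le _) hj ht (hC t' ht') (h1.mono s)
      (av_mem List.mem_cons_self)
    rw [this]
    exact ht'

/-- the origin -/
theorem orig (hs : Sta I Γ n) (ho : Op Γ k) (hC : ∀ t ∈ I.2.2.1, t ∈ I.1) {t : ℕ}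
    (ht : t ∈ I.1) (h1 : Av Γ (tl (0 % 3) (0 % 3) t) (LZ 0 0)) : t ∈ I.2.2.1 := by
  have e := (hs.fls true).mp ((hs.fls false).mp (hs.fac _ fmo))
  rcases ho.bigOr e with h | ⟨f, hf, h⟩
  · exact (close_nP hs (Nat.zero_le _) (Nat.zero_le _) h).elim
  · obtain ⟨t', ht', rfl⟩ := List.mem_map.1 hf
    have s : Γ ⊆ (tl 0 0 t', LX true 0 ∪ (LX false 0 ∪ {(0, false)})) :: Γ :=
      fun e he => List.mem_cons_of_mem _ he
    have := same (hs.mono s) h (i := 0) (j := 0) (Nat.zero_le _) (Nat.zero_le _) ht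
      (hC t' ht') (h1.mono s) (av_mem List.mem_cons_self)
    rw [this]
    exact ht'

/-- The lists of the system fit. -/
def Fit (I : Sys) : Prop :=
  (∀ t ∈ I.2.1, t ∈ I.1) ∧ (∀ t ∈ I.2.2.1, t ∈ I.1) ∧
    ∀ c, ∀ p ∈ rel I c, p.1 ∈ I.1 ∧ p.2 ∈ I.1

/-- A tiling of a square. -/
def STil (I : Sys) (n : ℕ) (τ : ℕ → ℕ → ℕ) : Prop :=
  (∀ i ≤ n, ∀ j ≤ n, τ i j ∈ I.1) ∧ (∀ j ≤ n, τ 0 j ∈ I.2.1) ∧ τ 0 0 ∈ I.2.2.1 ∧
    (∀ i < n, ∀ j ≤ n, (τ i j, τ (i + 1) j) ∈ I.2.2.2.1) ∧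
    ∀ i ≤ n, ∀ j < n, (τ i j, τ i (j + 1)) ∈ I.2.2.2.2

theorem squares (hI : Fit I) (ho : Op [(.neg (form I), ∅)] 0) (n : ℕ) : ∃ τ, STil I n τ := by
  classical
  obtain ⟨Γ, hΓ, hs⟩ := chain ho n
  let cs : List (ℕ × ℕ) := (List.range (n + 1)).flatMap fun i =>
    (List.range (n + 1)).map fun j => (i, j)
  have mcs : ∀ p : ℕ × ℕ, p ∈ cs ↔ p.1 ≤ n ∧ p.2 ≤ n := by
    intro p
    simp only [cs, List.mem_flatMap, List.mem_map, List.mem_range]
    constructor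
    · rintro ⟨i, hi, j, hj, rfl⟩
      exact ⟨by simpa using Nat.lt_succ_iff.1 hi, by simpa using Nat.lt_succ_iff.1 hj⟩
    · rintro ⟨h1, h2⟩
      exact ⟨p.1, by omega, p.2, by omega, rfl⟩
  obtain ⟨Γ', s, o, h⟩ := cells cs (fun p hp => (mcs p).1 hp) hs hΓ
  have hs' := hs.mono s
  choose! τ hτ1 hτ2 using h
  have t1 : ∀ i ≤ n, ∀ j ≤ n, τ (i, j) ∈ I.1 := fun i hi j hj => hτ1 _ ((mcs (i, j)).2 ⟨hi, hj⟩)
  have t2 : ∀ i ≤ n, ∀ j ≤ n, Av Γ' (tl (i % 3) (j % 3) (τ (i, j))) (LZ i j) :=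
    fun i hi j hj => hτ2 _ ((mcs (i, j)).2 ⟨hi, hj⟩)
  refine ⟨fun i j => τ (i, j), t1, ?_, ?_, ?_, ?_⟩
  · intro j hj
    exact col hs' o hI.1 hj (t1 0 (Nat.zero_le _) j hj) (t2 0 (Nat.zero_le _) j hj)
  · exact orig hs' o hI.2.1 (t1 0 (Nat.zero_le _) 0 (Nat.zero_le _))
      (t2 0 (Nat.zero_le _) 0 (Nat.zero_le _))
  · intro i hi j hj
    refine edge hs' o false hi hj (hI.2.2 false) (t1 i hi.le j hj) (t1 (i + 1) hi j hj)
      (at_false i j) (at_false (i + 1) j) (t2 i hi.le j hj) ?_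
    have := t2 (i + 1) hi j hj
    rw [← nx_mod] at this
    exact this
  · intro i hi j hj
    refine edge hs' o true hj hi (hI.2.2 true) (t1 i hi j hj.le) (t1 i hi (j + 1) hj)
      (at_true i j) (at_true i (j + 1)) (t2 i hi j hj.le) ?_
    have := t2 i hi (j + 1) hj
    rw [← nx_mod] at this
    exact this

theorem ultra {f : ℕ → ℕ} {L : List ℕ} (U : Ultrafilter ℕ) (h : ∀ᶠ n in (U : Filter ℕ), f n ∈ L) :
    ∃ k ∈ L, ∀ᶠ n in (U : Filter ℕ), f n = k := by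
  induction L with
  | nil =>
    have := h.exists
    obtain ⟨n, hn⟩ := this
    simp at hn
  | cons a L ih =>
    have h' : ∀ᶠ n in (U : Filter ℕ), f n = a ∨ f n ∈ L := h.mono fun n hn => List.mem_cons.1 hn
    rcases Ultrafilter.eventually_or.1 h' with h1 | h1
    · exact ⟨a, List.mem_cons_self, h1⟩
    · obtain ⟨k, hk, h2⟩ := ih h1
      exact ⟨k, List.mem_cons_of_mem _ hk, h2⟩

/-- If the formula is not acceptable, then the quadrant has a tiling. -/
theorem tiling_of_not (hI : Fit I) (h : form I ∉ Acceptable) : ∃ τ, QTil I τ := by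
  have ho : Op [(.neg (form I), ∅)] 0 := fun hd => h (acceptable_of_der hd)
  choose τ hτ using squares hI ho
  let U : Ultrafilter ℕ := Filter.hyperfilter ℕ
  have hU : ∀ m : ℕ, ∀ᶠ n in (U : Filter ℕ), m ≤ n := by
    intro m
    have h1 : ∀ᶠ n in Filter.cofinite, m ≤ n := by
      rw [Nat.cofinite_eq_atTop]
      exact Filter.eventually_ge_atTop m
    exact h1.filter_mono Filter.hyperfilter_le_cofinite
  have key : ∀ i j, ∃ k ∈ I.1, ∀ᶠ n in (U : Filter ℕ), τ n i j = k := by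
    intro i j
    refine ultra U ?_
    filter_upwards [hU i, hU j] with n h1 h2
    exact (hτ n).1 i h1 j h2
  choose σ hσ1 hσ2 using key
  refine ⟨σ, hσ1, ?_, ?_, ?_, ?_⟩
  · intro j
    obtain ⟨n, h1, h2⟩ := ((hσ2 0 j).and (hU j)).exists
    rw [← h1]
    exact (hτ n).2.1 j h2
  · obtain ⟨n, h1⟩ := (hσ2 0 0).exists
    rw [← h1]
    exact (hτ n).2.2.1
  · intro i j
    obtain ⟨n, ⟨⟨h1, h2⟩, h3⟩, h4⟩ := (((hσ2 i j).and (hσ2 (i + 1) j)).and (hU (i + 1))).and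
      (hU j) |>.exists
    rw [← h1, ← h2]
    exact (hτ n).2.2.2.1 i h3 j h4
  · intro i j
    obtain ⟨n, ⟨⟨h1, h2⟩, h3⟩, h4⟩ := (((hσ2 i j).and (hσ2 i (j + 1))).and (hU i)).and
      (hU (j + 1)) |>.exists
    rw [← h1, ← h2]
    exact (hτ n).2.2.2.2 i h3 j h4

end Pool.Agent.U20.TT
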