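import Pool.Agent.U20.TT.Form

/-!
The formula of a system depends on the system in a primitive recursive way.
-/

set_option autoImplicit false

namespace Pool.Agent.U20.TT

open Pool.Agent.R824.TT

/-- Gödel numbers of formulas. -/
def code : Fml → ℕ
  | .var p => 5 * p
  | .neg φ => 5 * code φ + 1
  | .conj φ ψ => 5 * Nat.pair (code φ) (code ψ) + 2
  | .disj φ ψ => 5 * Nat.pair (code φ) (code ψ) + 3
  | .imp φ ψ => 5 * Nat.pair (code φ) (code ψ) + 4

theorem code_inj : ∀ φ ψ : Fml, code φ = code ψ → φ = ψ
  | .var p, .var q, h => by simp only [code] at h; rw [show p = q by omega]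
  | .neg φ, .neg ψ, h => by
      simp only [code] at h
      rw [code_inj φ ψ (by omega)]
  | .conj φ ψ, .conj φ' ψ', h => by
      simp only [code] at h
      have h1 : Nat.pair (code φ) (code ψ) = Nat.pair (code φ') (code ψ') := by omega
      obtain ⟨h2, h3⟩ := Nat.pair_eq_pair.1 h1
      rw [code_inj φ φ' h2, code_inj ψ ψ' h3]
  | .disj φ ψ, .disj φ' ψ', h => by
      simp only [code] at h
      have h1 : Nat.pair (code φ) (code ψ) = Nat.pair (code φ') (code ψ') := by omega
      obtain ⟨h2, h3⟩ := Nat.pair_eq_pair.1 h1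
      rw [code_inj φ φ' h2, code_inj ψ ψ' h3]
  | .imp φ ψ, .imp φ' ψ', h => by
      simp only [code] at h
      have h1 : Nat.pair (code φ) (code ψ) = Nat.pair (code φ') (code ψ') := by omega
      obtain ⟨h2, h3⟩ := Nat.pair_eq_pair.1 h1
      rw [code_inj φ φ' h2, code_inj ψ ψ' h3]
  | .var p, .neg _, h => by simp only [code] at h; omega
  | .var p, .conj _ _, h => by simp only [code] at h; omega
  | .var p, .disj _ _, h => by simp only [code] at h; omega
  | .var p, .imp _ _, h => by simp only [code] at h; omega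
  | .neg _, .var _, h => by simp only [code] at h; omega
  | .neg _, .conj _ _, h => by simp only [code] at h; omega
  | .neg _, .disj _ _, h => by simp only [code] at h; omega
  | .neg _, .imp _ _, h => by simp only [code] at h; omega
  | .conj _ _, .var _, h => by simp only [code] at h; omega
  | .conj _ _, .neg _, h => by simp only [code] at h; omega
  | .conj _ _, .disj _ _, h => by simp only [code] at h; omega
  | .conj _ _, .imp _ _, h => by simp only [code] at h; omega
  | .disj _ _, .var _, h => by simp only [code] at h; omega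
  | .disj _ _, .neg _, h => by simp only [code] at h; omega
  | .disj _ _, .conj _ _, h => by simp only [code] at h; omega
  | .disj _ _, .imp _ _, h => by simp only [code] at h; omega
  | .imp _ _, .var _, h => by simp only [code] at h; omega
  | .imp _ _, .neg _, h => by simp only [code] at h; omega
  | .imp _ _, .conj _ _, h => by simp only [code] at h; omega
  | .imp _ _, .disj _ _, h => by simp only [code] at h; omega

/-- primitive recursive families of formulas -/
def PC {α : Type} [Primcodable α] (f : α → Fml) : Prop := Primrec (fun a => code (f a))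

/-- primitive recursive families of lists of formulas -/
def PL {α : Type} [Primcodable α] (f : α → List Fml) : Prop :=
  Primrec (fun a => (f a).map code)

variable {α β : Type} [Primcodable α] [Primcodable β]

theorem p_lin (a b : ℕ) {f : α → ℕ} (hf : Primrec f) : Primrec (fun x => a * f x + b) :=
  Primrec.nat_add.comp (Primrec.nat_mul.comp (Primrec.const a) hf) (Primrec.const b)

theorem PC.const (φ : Fml) : PC (fun _ : α => φ) := Primrec.const _

theorem PC.lt {f g : α → ℕ} (hf : Primrec f) (hg : Primrec g) :
    PC (fun a => TT.lt (f a) (g a)) :=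
  (p_lin 5 0 (Primrec₂.natPair.comp hf hg)).of_eq fun a => by simp [TT.lt, code]

theorem PC.neg {f : α → Fml} (hf : PC f) : PC (fun a => .neg (f a)) := p_lin 5 1 hf

theorem PC.conj {f g : α → Fml} (hf : PC f) (hg : PC g) : PC (fun a => .conj (f a) (g a)) :=
  p_lin 5 2 (Primrec₂.natPair.comp hf hg)

theorem PC.imp {f g : α → Fml} (hf : PC f) (hg : PC g) : PC (fun a => .imp (f a) (g a)) :=
  p_lin 5 4 (Primrec₂.natPair.comp hf hg)

theorem PC.fus {f g : α → Fml} (hf : PC f) (hg : PC g) :
    PC (fun a => R824.TT.fus (f a) (g a)) := (hf.imp hg.neg).neg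

theorem bigOr_code (J : Fml) (L : List Fml) : code (bigOr J L) =
    (L.map code).foldr (fun x y => 5 * Nat.pair x y + 3) (code J) := by
  induction L with
  | nil => rfl
  | cons C L ih =>
    rw [List.map_cons, List.foldr_cons, ← ih]
    rfl

theorem bigAnd_code (L : List Fml) : code (bigAnd L) =
    (L.map code).foldr (fun x y => 5 * Nat.pair x y + 2) (code (.imp nP nP)) := by
  induction L with
  | nil => rfl
  | cons C L ih =>
    rw [List.map_cons, List.foldr_cons, ← ih]
    rfl

theorem PC.bigOr (J : Fml) {f : α → List β} (hf : Primrec f) {g : α → β → Fml}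
    (hg : PC (fun x : α × β => g x.1 x.2)) : PC (fun a => TT.bigOr J ((f a).map (g a))) := by
  have h1 : Primrec (fun a => (f a).map (fun b => code (g a b))) :=
    Primrec.list_map hf (show Primrec₂ (fun a b => code (g a b)) from hg)
  have h2 : Primrec₂ (fun (_ : α) (z : ℕ × ℕ) => 5 * Nat.pair z.1 z.2 + 3) := by
    have h3 : Primrec (fun z : ℕ × ℕ => 5 * Nat.pair z.1 z.2 + 3) :=
      p_lin 5 3 (Primrec₂.natPair.comp Primrec.fst Primrec.snd)
    exact h3.comp Primrec.snd
  refine (Primrec.list_foldr h1 (Primrec.const (code J)) h2).of_eq ?_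
  intro a
  rw [bigOr_code, List.map_map]
  rfl

theorem PC.bigAnd {f : α → List Fml} (hf : PL f) : PC (fun a => TT.bigAnd (f a)) := by
  have h2 : Primrec₂ (fun (_ : α) (z : ℕ × ℕ) => 5 * Nat.pair z.1 z.2 + 2) := by
    have h3 : Primrec (fun z : ℕ × ℕ => 5 * Nat.pair z.1 z.2 + 2) :=
      p_lin 5 2 (Primrec₂.natPair.comp Primrec.fst Primrec.snd)
    exact h3.comp Primrec.snd
  refine (Primrec.list_foldr (show Primrec (fun a => (f a).map code) from hf)
    (Primrec.const (code (.imp nP nP))) h2).of_eq ?_
  intro a
  rw [bigAnd_code]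

theorem PL.nil : PL (fun _ : α => ([] : List Fml)) := Primrec.const _

theorem PL.cons {f : α → Fml} {h : α → List Fml} (hf : PC f) (hh : PL h) :
    PL (fun a => f a :: h a) := Primrec.list_cons.comp hf hh

theorem PL.append {f g : α → List Fml} (hf : PL f) (hg : PL g) :
    PL (fun a => f a ++ g a) := by
  refine (Primrec.list_append.comp hf hg).of_eq ?_
  intro a
  rw [List.map_append]

theorem PL.flatMap {f : α → List β} (hf : Primrec f) {g : α → β → List Fml}
    (hg : PL (fun x : α × β => g x.1 x.2)) : PL (fun a => (f a).flatMap (g a)) := by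
  have h1 : Primrec (fun a => (f a).flatMap (fun b => (g a b).map code)) :=
    Primrec.list_flatMap hf (show Primrec₂ (fun a b => (g a b).map code) from hg)
  refine h1.of_eq ?_
  intro a
  rw [List.map_flatMap]

theorem PL.ite {p : α → Prop} [DecidablePred p] (hp : PrimrecPred p) {f g : α → List Fml}
    (hf : PL f) (hg : PL g) : PL (fun a => if p a then f a else g a) := by
  refine (Primrec.ite hp hf hg).of_eq ?_
  intro a
  by_cases h : p a
  · simp only [if_pos h]
  · simp only [if_neg h]

section letters

variable {a b k : α → ℕ}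

theorem p_nx (ha : Primrec a) : Primrec fun x => nx (a x) :=
  Primrec.nat_mod.comp (Primrec.succ.comp ha) (Primrec.const 3)

theorem p_pt (c : Bool) (ha : Primrec a) : PC fun x => pt c (a x) := PC.lt (Primrec.const _) ha
theorem p_de (c : Bool) (ha : Primrec a) : PC fun x => de c (a x) := PC.lt (Primrec.const _) ha
theorem p_up (c : Bool) (ha : Primrec a) : PC fun x => up c (a x) := PC.lt (Primrec.const _) ha

theorem p_tl (ha : Primrec a) (hb : Primrec b) (hk : Primrec k) :
    PC fun x => tl (a x) (b x) (k x) :=
  PC.lt (Primrec.nat_add.comp (Primrec.const 7) (Primrec.nat_add.comp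
    (Primrec.nat_mul.comp (Primrec.const 3) ha) hb)) hk

theorem p_tg (c : Bool) (ha : Primrec a) (hb : Primrec b) (hk : Primrec k) :
    PC fun x => tg c (a x) (b x) (k x) := by
  cases c
  · exact p_tl ha hb hk
  · exact p_tl hb ha hk

end letters

variable {I : α → Sys} {a b : α → ℕ}

theorem p_rel (hI : Primrec I) (c : Bool) : Primrec fun x => rel (I x) c := by
  cases c
  · exact Primrec.fst.comp (Primrec.snd.comp (Primrec.snd.comp (Primrec.snd.comp hI)))
  · exact Primrec.snd.comp (Primrec.snd.comp (Primrec.snd.comp (Primrec.snd.comp hI)))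

theorem p_fe (hI : Primrec I) (c : Bool) (ha : Primrec a) (hb : Primrec b) :
    PC fun x => fe (I x) c (a x) (b x) := by
  refine (p_pt c ha).imp ((p_pt c (p_nx ha)).imp ((p_pt (!c) hb).imp (PC.bigOr (jk c)
    (p_rel hI c) ?_)))
  exact (p_tg c (ha.comp Primrec.fst) (hb.comp Primrec.fst) (Primrec.fst.comp Primrec.snd)).conj
    (p_tg c (p_nx (ha.comp Primrec.fst)) (hb.comp Primrec.fst) (Primrec.snd.comp Primrec.snd))

theorem p_tests (hI : Primrec I) (c : Bool) (ha : Primrec a) (hb : Primrec b) :
    PL fun x => tests (I x) c (a x) (b x) := by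
  have hK : Primrec fun x => (I x).1 := Primrec.fst.comp hI
  refine PL.flatMap hK (PL.flatMap (hK.comp Primrec.fst) (PL.ite ?_ PL.nil (PL.cons ?_ PL.nil)))
  · exact Primrec.eq.comp (Primrec.snd.comp Primrec.fst) Primrec.snd
  · have ha' : Primrec fun x : (α × ℕ) × ℕ => a x.1.1 :=
      ha.comp (Primrec.fst.comp Primrec.fst)
    have hb' : Primrec fun x : (α × ℕ) × ℕ => b x.1.1 :=
      hb.comp (Primrec.fst.comp Primrec.fst)
    exact (p_de c ha').imp ((p_de (!c) hb').imp
      ((p_tg c ha' hb' (Primrec.snd.comp Primrec.fst)).conj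
        (p_tg c ha' hb' Primrec.snd)).neg)

theorem p_fabc (hI : Primrec I) (c : Bool) (ha : Primrec a) (hb : Primrec b) :
    PL fun x => fabc (I x) c (a x) (b x) := by
  refine PL.cons ?_ (PL.cons ?_ (PL.cons ?_ (PL.cons (p_fe hI c ha hb) (PL.cons ?_
    (p_tests hI c ha hb)))))
  · exact (p_de c ha).imp ((p_pt c (p_nx ha)).fus (p_up c ha))
  · exact (p_up c ha).imp ((p_pt c ha).imp (p_de c (p_nx ha)))
  · exact (p_up c ha).imp ((p_pt c (p_nx ha)).imp (p_de c ha))
  · exact (PC.const _).imp ((p_up c ha).imp (p_de (!c) hb).neg)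

theorem p_fab (hI : Primrec I) (ha : Primrec a) (hb : Primrec b) :
    PL fun x => fab (I x) (a x) (b x) := by
  refine PL.cons ?_ (PL.cons ?_ (PL.cons ?_ (PL.append (p_fabc hI false ha hb)
    (p_fabc hI true ha hb))))
  · exact (p_pt false ha).imp ((p_pt true hb).imp (PC.bigOr nP (Primrec.fst.comp hI)
      (p_tl (ha.comp Primrec.fst) (hb.comp Primrec.fst) Primrec.snd)))
  · exact (PC.const _).imp ((p_pt true hb).imp (PC.bigOr nP
      (Primrec.fst.comp (Primrec.snd.comp hI))
      (p_tl (Primrec.const 0) (hb.comp Primrec.fst) Primrec.snd)))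
  · exact (PC.const _).imp ((p_de false ha).imp (p_de true hb).neg)

theorem p_facts (hI : Primrec I) : PL fun x => facts (I x) := by
  refine PL.cons (PC.const _) (PL.cons (PC.const _) (PL.cons ?_ ?_))
  · exact (PC.const _).imp ((PC.const _).imp (PC.bigOr nP
      (Primrec.fst.comp (Primrec.snd.comp (Primrec.snd.comp hI)))
      (p_tl (Primrec.const 0) (Primrec.const 0) Primrec.snd)))
  · exact PL.flatMap (Primrec.const _) (PL.flatMap (Primrec.const _)
      (p_fab (hI.comp (Primrec.fst.comp Primrec.fst)) (Primrec.snd.comp Primrec.fst)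
        Primrec.snd))

theorem p_form (hI : Primrec I) : PC fun x => form (I x) :=
  (PC.bigAnd (p_facts hI)).imp (PC.const _)

end Pool.Agent.U20.TT
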