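import Pool.Agent.U20.TT.Fold
import Pool.Agent.U20.TT.Prim

/-!
The set of acceptable formulas is undecidable.
-/

set_option autoImplicit false

namespace Pool.Agent.U20.TT

open Pool.Agent.R824.TT Pool.Agent.Q230.DLC

theorem p_prs : Primrec prs := by
  refine Primrec.list_flatMap Primrec.id ?_
  exact (Primrec.list_map Primrec.fst
    (Primrec.pair (Primrec.snd.comp Primrec.fst) Primrec.snd).to₂).to₂

theorem p_prs2 : Primrec prs2 := by
  refine Primrec.list_flatMap p_prs ?_
  exact (Primrec.list_map (p_prs.comp Primrec.fst)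
    (Primrec.pair (Primrec.snd.comp Primrec.fst) Primrec.snd).to₂).to₂

theorem p_en : Primrec en := Primrec.encode

theorem p_en2 : Primrec en2 :=
  Primrec.pair (p_en.comp Primrec.fst) (p_en.comp Primrec.snd)

theorem p_c0 : PrimrecPred c0 :=
  Primrec.eq.comp (Primrec.fst.comp Primrec.snd)
    (Primrec.fst.comp (Primrec.snd.comp (Primrec.snd.comp Primrec.fst)))

theorem p_q0 (q0 : Sq) : PrimrecPred fun P : PP => P.1 = q0 :=
  Primrec.eq.comp Primrec.fst (Primrec.const q0)

theorem p_ch : PrimrecPred ch := by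
  refine PrimrecPred.and ?_ ?_
  · exact Primrec.eq.comp (Primrec.fst.comp (Primrec.fst.comp Primrec.fst))
      (Primrec.fst.comp (Primrec.snd.comp (Primrec.snd.comp (Primrec.fst.comp Primrec.snd))))
  · exact Primrec.eq.comp (Primrec.fst.comp (Primrec.snd.comp Primrec.snd))
      (Primrec.fst.comp (Primrec.snd.comp (Primrec.snd.comp (Primrec.snd.comp Primrec.fst))))

theorem p_cv' : PrimrecPred cv' := by
  refine PrimrecPred.and ?_ ?_
  · exact Primrec.eq.comp
      (Primrec.fst.comp (Primrec.snd.comp (Primrec.fst.comp Primrec.fst)))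
      (Primrec.snd.comp (Primrec.snd.comp (Primrec.snd.comp (Primrec.fst.comp Primrec.snd))))
  · exact Primrec.eq.comp
      (Primrec.fst.comp (Primrec.snd.comp (Primrec.snd.comp Primrec.fst)))
      (Primrec.snd.comp (Primrec.snd.comp (Primrec.snd.comp (Primrec.snd.comp Primrec.snd))))

theorem p_sys (q0 : Sq) : Primrec (sys q0) := by
  refine Primrec.pair (Primrec.list_map p_prs (p_en.comp Primrec.snd).to₂) ?_
  refine Primrec.pair (Primrec.list_map ((Primrec.listFilter p_c0).comp p_prs)
    (p_en.comp Primrec.snd).to₂) ?_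
  refine Primrec.pair (Primrec.list_map ((Primrec.listFilter (p_q0 q0)).comp p_prs)
    (p_en.comp Primrec.snd).to₂) ?_
  exact Primrec.pair (Primrec.list_map ((Primrec.listFilter p_ch).comp p_prs2)
    (p_en2.comp Primrec.snd).to₂) (Primrec.list_map ((Primrec.listFilter p_cv').comp p_prs2)
    (p_en2.comp Primrec.snd).to₂)

theorem undecidable : ¬ ComputablePred fun n : ℕ => ∃ φ : Fml, code φ = n ∧ φ ∈ Acceptable := by
  obtain ⟨W, q0, P, hW, hP, -, hWP⟩ := source
  intro hc
  apply hP
  refine ComputablePred.computable_of_manyOneReducible (q := fun n : ℕ => ∃ φ : Fml,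
    code φ = n ∧ φ ∈ Acceptable) ⟨fun m => code (form (sys q0 (W m))), ?_, ?_⟩ hc
  · have h1 : Primrec fun V : List Sq => code (form (sys q0 V)) := p_form (p_sys q0)
    exact h1.to_comp.comp hW
  · intro m
    have h1 := hWP m
    rw [til_iff_form] at h1
    constructor
    · intro hm
      refine ⟨_, rfl, ?_⟩
      by_contra h
      exact (h1.1 h) hm
    · rintro ⟨φ, hφ, h⟩
      rw [code_inj _ _ hφ] at h
      by_contra hm
      exact (h1.2 hm) h

end Pool.Agent.U20.TT
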