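import Pool.Agent.U20.TT.Form

/-!
From a tiling to a model: the formula of the system is not acceptable.
-/

set_option autoImplicit false

namespace Pool.Agent.U20.TT

open Pool.Agent.R824.TT

/-- points -/
abbrev Pt := Bool × ℕ

def PT (c : Bool) (a : ℕ) (x : Set Pt) : Prop := ∃ m, m % 3 = a ∧ x ⊆ {q | q = (c, m)}
def DE (c : Bool) (a : ℕ) (x : Set Pt) : Prop :=
  ∃ m, m % 3 = a ∧ x ⊆ {q | q.1 = c ∧ q.2 ≠ m}
def UP (c : Bool) (a : ℕ) (x : Set Pt) : Prop :=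
  ∃ m, m % 3 = a ∧ x ⊆ {q | q.1 = c ∧ q.2 ≠ m ∧ q.2 ≠ m + 1}
def ST (c : Bool) (x : Set Pt) : Prop := x ⊆ {q | q.1 = c}
def FL (c : Bool) (x : Set Pt) : Prop := x ⊆ {q | q = (c, 0)}
def JK (c : Bool) (x : Set Pt) : Prop :=
  ∃ m m' n : ℕ, m + 2 ≤ m' ∧ x ⊆ {q | q = (c, m) ∨ q = (c, m') ∨ q = (!c, n)}
def NB (i j : ℕ) (q : Pt) : Prop :=
  (q.1 = false ∧ (q.2 = i + 1 ∨ q.2 + 1 = i)) ∨ (q.1 = true ∧ (q.2 = j + 1 ∨ q.2 + 1 = j))
def TL (τ : ℕ → ℕ → ℕ) (a b k : ℕ) (x : Set Pt) : Prop :=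
  ∃ (i j : ℕ) (p : Pt), i % 3 = a ∧ j % 3 = b ∧ τ i j = k ∧ NB i j p ∧
    x ⊆ {q | q = (false, i) ∨ q = (true, j) ∨ q = p}

/-- the valuation by tags -/
def VV (τ : ℕ → ℕ → ℕ) : ℕ → ℕ → Set Pt → Prop
  | 0, a, x => PT false a x
  | 1, a, x => PT true a x
  | 2, a, x => DE false a x
  | 3, a, x => DE true a x
  | 4, a, x => UP false a x
  | 5, a, x => UP true a x
  | 6, 0, x => ST false x
  | 6, 1, x => ST true x
  | 6, 2, x => FL false x
  | 6, 3, x => FL true x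
  | 6, 4, x => JK false x
  | 6, 5, x => JK true x
  | 6, _ + 6, _ => False
  | t + 7, k, x => TL τ (t / 3) (t % 3) k x

/-- the valuation -/
def vv (τ : ℕ → ℕ → ℕ) (p : ℕ) (x : Set Pt) : Prop := VV τ p.unpair.1 p.unpair.2 x

theorem VV_mono (τ : ℕ → ℕ → ℕ) {x y : Set Pt} (h : x ⊆ y) : ∀ t k, VV τ t k y → VV τ t k x
  | 0, a, ⟨m, h1, h2⟩ => ⟨m, h1, h.trans h2⟩
  | 1, a, ⟨m, h1, h2⟩ => ⟨m, h1, h.trans h2⟩
  | 2, a, ⟨m, h1, h2⟩ => ⟨m, h1, h.trans h2⟩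
  | 3, a, ⟨m, h1, h2⟩ => ⟨m, h1, h.trans h2⟩
  | 4, a, ⟨m, h1, h2⟩ => ⟨m, h1, h.trans h2⟩
  | 5, a, ⟨m, h1, h2⟩ => ⟨m, h1, h.trans h2⟩
  | 6, 0, hy => h.trans hy
  | 6, 1, hy => h.trans hy
  | 6, 2, hy => h.trans hy
  | 6, 3, hy => h.trans hy
  | 6, 4, ⟨m, m', n, h1, h2⟩ => ⟨m, m', n, h1, h.trans h2⟩
  | 6, 5, ⟨m, m', n, h1, h2⟩ => ⟨m, m', n, h1, h.trans h2⟩
  | 6, _ + 6, hy => hy
  | t + 7, k, ⟨i, j, p, h1, h2, h3, h4, h5⟩ => ⟨i, j, p, h1, h2, h3, h4, h.trans h5⟩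

theorem vv_mono (τ : ℕ → ℕ → ℕ) : ∀ p (x y : Set Pt), x ⊆ y → vv τ p y → vv τ p x :=
  fun _ _ _ h hy => VV_mono τ h _ _ hy

section

variable {τ : ℕ → ℕ → ℕ} {x y z : Set Pt}

theorem holds_lt {t i : ℕ} : Holds (vv τ) (lt t i) x ↔ VV τ t i x := by
  show VV τ (Nat.unpair (Nat.pair t i)).1 (Nat.unpair (Nat.pair t i)).2 x ↔ _
  rw [Nat.unpair_pair]

theorem h_pt {c : Bool} {a : ℕ} : Holds (vv τ) (pt c a) x ↔ PT c a x := by
  cases c <;> exact holds_lt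

theorem h_de {c : Bool} {a : ℕ} : Holds (vv τ) (de c a) x ↔ DE c a x := by
  cases c <;> exact holds_lt

theorem h_up {c : Bool} {a : ℕ} : Holds (vv τ) (up c a) x ↔ UP c a x := by
  cases c <;> exact holds_lt

theorem h_st {c : Bool} : Holds (vv τ) (st c) x ↔ ST c x := by
  cases c <;> exact holds_lt

theorem h_fl {c : Bool} : Holds (vv τ) (fl c) x ↔ FL c x := by
  cases c <;> exact holds_lt

theorem h_jk {c : Bool} : Holds (vv τ) (jk c) x ↔ JK c x := by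
  cases c <;> exact holds_lt

theorem h_nP : ¬ Holds (vv τ) nP x := fun h => holds_lt.1 h

theorem h_tl {a b k : ℕ} (hb : b < 3) : Holds (vv τ) (tl a b k) x ↔ TL τ a b k x := by
  unfold tl
  rw [holds_lt, Nat.add_comm 7]
  show TL τ ((3 * a + b) / 3) ((3 * a + b) % 3) k x ↔ _
  rw [show (3 * a + b) / 3 = a by omega, show (3 * a + b) % 3 = b by omega]

theorem h_imp {v : ℕ → Set Pt → Prop} {φ ψ : Fml} :
    Holds v (.imp φ ψ) ∅ ↔ ∀ y, Holds v φ y → Holds v ψ y := by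
  simp only [Holds, Set.empty_union]

theorem h_fus {v : ℕ → Set Pt → Prop} (hv : ∀ p x y, x ⊆ y → v p y → v p x) {φ ψ : Fml}
    (hy : Holds v φ y) (hz : Holds v ψ z) (h : x ⊆ y ∪ z) : Holds v (fus φ ψ) x := by
  intro hc
  refine hc y hy ?_
  refine holds_mono hv ψ _ z ?_ hz
  intro a ha
  simp only [Set.mem_compl_iff, Set.mem_union, not_or, not_not] at ha
  exact (h ha.1).resolve_left ha.2

theorem h_bigOr {v : ℕ → Set Pt → Prop} {J : Fml} {L : List Fml} (h : Holds v J x ∨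
    ∃ f ∈ L, Holds v f x) : Holds v (bigOr J L) x := by
  induction L with
  | nil =>
    rcases h with h | ⟨f, hf, _⟩
    · exact h
    · simp at hf
  | cons a L ih =>
    rcases h with h | ⟨f, hf, h⟩
    · exact Or.inr (ih (Or.inl h))
    · rcases List.mem_cons.1 hf with rfl | hf
      · exact Or.inl h
      · exact Or.inr (ih (Or.inr ⟨f, hf, h⟩))

theorem h_bigAnd {v : ℕ → Set Pt → Prop} {L : List Fml} (h : ∀ f ∈ L, Holds v f ∅) :
    Holds v (bigAnd L) ∅ := by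
  induction L with
  | nil => exact h_imp.2 fun y hy => hy
  | cons a L ih =>
    exact ⟨h a List.mem_cons_self, ih fun f hf => h f (List.mem_cons_of_mem _ hf)⟩

theorem h_tg {c : Bool} {a b k : ℕ} (ha : a < 3) (hb : b < 3) :
    Holds (vv τ) (tg c a b k) x ↔ if c then TL τ b a k x else TL τ a b k x := by
  cases c
  · exact h_tl hb
  · exact h_tl ha

theorem bne (c : Bool) : (!c) ≠ c := by cases c <;> simp

theorem m_f1 (c : Bool) (a : ℕ) : Holds (vv τ) (f1 c a) ∅ := by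
  refine h_imp.2 fun x hx => ?_
  obtain ⟨m, hm, hx⟩ := h_de.1 hx
  refine h_fus (vv_mono τ) (y := {q | q = (c, m + 1)})
    (z := {q | q.1 = c ∧ q.2 ≠ m ∧ q.2 ≠ m + 1}) ?_ ?_ ?_
  · exact h_pt.2 ⟨m + 1, by unfold nx; omega, subset_rfl⟩
  · exact h_up.2 ⟨m, hm, subset_rfl⟩
  · intro q hq
    obtain ⟨h1, h2⟩ := hx hq
    by_cases h3 : q.2 = m + 1
    · exact Or.inl (Prod.ext h1 h3)
    · exact Or.inr ⟨h1, h2, h3⟩

theorem m_f2 (c : Bool) (a : ℕ) : Holds (vv τ) (f2 c a) ∅ := by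
  refine h_imp.2 fun x hx y hy => ?_
  obtain ⟨m, hm, hx⟩ := h_up.1 hx
  obtain ⟨m', hm', hy⟩ := h_pt.1 hy
  refine h_de.2 ⟨m + 1, by unfold nx; omega, ?_⟩
  rintro q (hq | hq)
  · exact ⟨(hx hq).1, (hx hq).2.2⟩
  · have := hy hq
    simp only [Set.mem_setOf_eq] at this
    subst this
    refine ⟨rfl, ?_⟩
    show m' ≠ m + 1
    omega

theorem m_f3 (c : Bool) (a : ℕ) : Holds (vv τ) (f3 c a) ∅ := by
  refine h_imp.2 fun x hx y hy => ?_
  obtain ⟨m, hm, hx⟩ := h_up.1 hx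
  obtain ⟨m', hm', hy⟩ := h_pt.1 hy
  refine h_de.2 ⟨m, hm, ?_⟩
  rintro q (hq | hq)
  · exact ⟨(hx hq).1, (hx hq).2.1⟩
  · have := hy hq
    simp only [Set.mem_setOf_eq] at this
    subst this
    refine ⟨rfl, ?_⟩
    show m' ≠ m
    unfold nx at hm'
    omega

theorem m_f4 (c : Bool) : Holds (vv τ) (f4 c) ∅ := by
  refine h_imp.2 fun x hx => ?_
  have hx := h_st.1 hx
  refine h_fus (vv_mono τ) (y := {q | q = (c, 0)}) (z := {q | q.1 = c ∧ q.2 ≠ 0}) ?_ ?_ ?_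
  · exact ⟨h_pt.2 ⟨0, rfl, subset_rfl⟩, h_fl.2 subset_rfl⟩
  · exact h_de.2 ⟨0, rfl, subset_rfl⟩
  · intro q hq
    have h1 := hx hq
    by_cases h3 : q.2 = 0
    · exact Or.inl (Prod.ext h1 h3)
    · exact Or.inr ⟨h1, h3⟩

theorem m_fe {I : Sys} (hτ : QTil I τ) (c : Bool) {a b : ℕ} (ha : a < 3) (hb : b < 3) :
    Holds (vv τ) (fe I c a b) ∅ := by
  refine h_imp.2 fun x hx y hy z hz => ?_
  obtain ⟨m, hm, hx⟩ := h_pt.1 hx
  obtain ⟨m', hm', hy⟩ := h_pt.1 hy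
  obtain ⟨n, hn, hz⟩ := h_pt.1 hz
  have hsub : x ∪ y ∪ z ⊆ {q | q = (c, m) ∨ q = (c, m') ∨ q = (!c, n)} := by
    rintro q ((hq | hq) | hq)
    · exact Or.inl (hx hq)
    · exact Or.inr (Or.inl (hy hq))
    · exact Or.inr (Or.inr (hz hq))
  have hnx : nx a < 3 := Nat.mod_lt _ (by omega)
  refine h_bigOr ?_
  by_cases h : m' = m + 1
  · right
    subst h
    cases c
    · refine ⟨_, List.mem_map.2 ⟨(τ m n, τ (m + 1) n), hτ.2.2.2.1 m n, rfl⟩, ?_, ?_⟩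
      · refine (h_tg ha hb).2 ⟨m, n, (false, m + 1), hm, hn, rfl, Or.inl ⟨rfl, Or.inl rfl⟩, ?_⟩
        refine hsub.trans ?_
        rintro q (rfl | rfl | rfl)
        · exact Or.inl rfl
        · exact Or.inr (Or.inr rfl)
        · exact Or.inr (Or.inl rfl)
      · refine (h_tg hnx hb).2 ⟨m + 1, n, (false, m), hm', hn, rfl,
          Or.inl ⟨rfl, Or.inr rfl⟩, ?_⟩
        refine hsub.trans ?_
        rintro q (rfl | rfl | rfl)
        · exact Or.inr (Or.inr rfl)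
        · exact Or.inl rfl
        · exact Or.inr (Or.inl rfl)
    · refine ⟨_, List.mem_map.2 ⟨(τ n m, τ n (m + 1)), hτ.2.2.2.2 n m, rfl⟩, ?_, ?_⟩
      · refine (h_tg ha hb).2 ⟨n, m, (true, m + 1), hn, hm, rfl, Or.inr ⟨rfl, Or.inl rfl⟩, ?_⟩
        refine hsub.trans ?_
        rintro q (rfl | rfl | rfl)
        · exact Or.inr (Or.inl rfl)
        · exact Or.inr (Or.inr rfl)
        · exact Or.inl rfl
      · refine (h_tg hnx hb).2 ⟨n, m + 1, (true, m), hn, hm', rfl,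
          Or.inr ⟨rfl, Or.inr rfl⟩, ?_⟩
        refine hsub.trans ?_
        rintro q (rfl | rfl | rfl)
        · exact Or.inr (Or.inr rfl)
        · exact Or.inr (Or.inl rfl)
        · exact Or.inl rfl
  · left
    unfold nx at hm'
    rcases Nat.lt_or_ge m m' with hlt | hge
    · exact h_jk.2 ⟨m, m', n, by omega, hsub⟩
    · refine h_jk.2 ⟨m', m, n, by omega, hsub.trans ?_⟩
      rintro q (hq | hq | hq)
      · exact Or.inr (Or.inl hq)
      · exact Or.inl hq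
      · exact Or.inr (Or.inr hq)

theorem m_fk (c : Bool) (a b : ℕ) : Holds (vv τ) (fk c a b) ∅ := by
  refine h_imp.2 fun x hx y hy h => ?_
  obtain ⟨m1, m2, n', h12, hx⟩ := h_jk.1 hx
  obtain ⟨m, hm, hy⟩ := h_up.1 hy
  obtain ⟨n, hn, h⟩ := h_de.1 h
  have key : ∀ l, (l = m ∨ l = m + 1) → (l = m1 ∨ l = m2) := by
    intro l hl
    have h1 : (c, l) ∈ x ∪ y := by
      by_contra hcon
      exact bne c (h hcon).1.symm
    rcases h1 with h1 | h1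
    · rcases hx h1 with h2 | h2 | h2
      · exact Or.inl (Prod.ext_iff.1 h2).2
      · exact Or.inr (Prod.ext_iff.1 h2).2
      · exact absurd (Prod.ext_iff.1 h2).1.symm (bne c)
    · have := (hy h1).2
      simp only at this
      omega
  have h1 := key m (Or.inl rfl)
  have h2 := key (m + 1) (Or.inr rfl)
  omega

theorem TL_eq {a b k m n : ℕ} {w : Set Pt} (h : TL τ a b k w) (hm : m % 3 = a) (hn : n % 3 = b)
    (h1 : (false, m) ∈ w) (h2 : (true, n) ∈ w) : τ m n = k := by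
  obtain ⟨i, j, p, hi, hj, hk, hp, hw⟩ := h
  have e1 : m = i := by
    rcases hw h1 with h3 | h3 | h3
    · exact (Prod.ext_iff.1 h3).2
    · exact absurd (Prod.ext_iff.1 h3).1 (by simp)
    · subst h3
      rcases hp with ⟨_, h4⟩ | ⟨h4, _⟩
      · simp only at h4; omega
      · simp at h4
  have e2 : n = j := by
    rcases hw h2 with h3 | h3 | h3
    · exact absurd (Prod.ext_iff.1 h3).1 (by simp)
    · exact (Prod.ext_iff.1 h3).2
    · subst h3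
      rcases hp with ⟨h4, _⟩ | ⟨_, h4⟩
      · simp at h4
      · simp only at h4; omega
  rw [e1, e2]
  exact hk

theorem m_ft (c : Bool) {a b k k' : ℕ} (ha : a < 3) (hb : b < 3) (hk : k ≠ k') :
    Holds (vv τ) (ft c a b k k') ∅ := by
  refine h_imp.2 fun x hx y hy h => ?_
  obtain ⟨m, hm, hx⟩ := h_de.1 hx
  obtain ⟨n, hn, hy⟩ := h_de.1 hy
  obtain ⟨h1, h2⟩ := h
  rw [h_tg ha hb] at h1 h2
  have i1 : (c, m) ∈ (x ∪ y)ᶜ := by
    rintro (h | h)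
    · exact (hx h).2 rfl
    · exact bne c (hy h).1.symm
  have i2 : (!c, n) ∈ (x ∪ y)ᶜ := by
    rintro (h | h)
    · exact bne c (hx h).1
    · exact (hy h).2 rfl
  cases c
  · exact hk ((TL_eq h1 hm hn i1 i2).symm.trans (TL_eq h2 hm hn i1 i2))
  · exact hk ((TL_eq h1 hn hm i2 i1).symm.trans (TL_eq h2 hn hm i2 i1))

theorem m_tl {a b m n : ℕ} (hb : b < 3) (hm : m % 3 = a) (hn : n % 3 = b)
    (hx : x ⊆ {q | q = (false, m)}) (hy : y ⊆ {q | q = (true, n)}) :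
    Holds (vv τ) (tl a b (τ m n)) (x ∪ y) := by
  refine (h_tl hb).2 ⟨m, n, (false, m + 1), hm, hn, rfl, Or.inl ⟨rfl, Or.inl rfl⟩, ?_⟩
  rintro q (hq | hq)
  · exact Or.inl (hx hq)
  · exact Or.inr (Or.inl (hy hq))

theorem m_fp {I : Sys} (hτ : QTil I τ) {a b : ℕ} (hb : b < 3) :
    Holds (vv τ) (fp I a b) ∅ := by
  refine h_imp.2 fun x hx y hy => ?_
  obtain ⟨m, hm, hx⟩ := h_pt.1 hx
  obtain ⟨n, hn, hy⟩ := h_pt.1 hy
  exact h_bigOr (Or.inr ⟨_, List.mem_map.2 ⟨τ m n, hτ.1 m n, rfl⟩, m_tl hb hm hn hx hy⟩)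

theorem m_fz {I : Sys} (hτ : QTil I τ) {b : ℕ} (hb : b < 3) :
    Holds (vv τ) (fz I b) ∅ := by
  refine h_imp.2 fun x hx y hy => ?_
  have hx := h_fl.1 hx
  obtain ⟨n, hn, hy⟩ := h_pt.1 hy
  exact h_bigOr (Or.inr ⟨_, List.mem_map.2 ⟨τ 0 n, hτ.2.1 n, rfl⟩, m_tl hb rfl hn hx hy⟩)

theorem m_fo {I : Sys} (hτ : QTil I τ) : Holds (vv τ) (fo I) ∅ := by
  refine h_imp.2 fun x hx y hy => ?_
  have hx := h_fl.1 hx
  have hy := h_fl.1 hy
  exact h_bigOr (Or.inr ⟨_, List.mem_map.2 ⟨τ 0 0, hτ.2.2.1, rfl⟩,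
    m_tl (by omega) rfl rfl hx hy⟩)

theorem m_facts {I : Sys} (hτ : QTil I τ) : ∀ f ∈ facts I, Holds (vv τ) f ∅ := by
  intro f hf
  rcases mem_facts.1 hf with rfl | rfl | rfl | ⟨a, ha, b, hb, hf⟩
  · exact m_f4 _
  · exact m_f4 _
  · exact m_fo hτ
  rcases mem_fab.1 hf with rfl | rfl | rfl | ⟨c, hf⟩
  · exact m_fp hτ hb
  · exact m_fz hτ hb
  · exact h_imp.2 fun x hx => absurd hx h_nP
  rcases mem_fabc.1 hf with rfl | rfl | rfl | rfl | rfl | ⟨k, _, k', _, hne, rfl⟩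
  · exact m_f1 _ _
  · exact m_f2 _ _
  · exact m_f3 _ _
  · exact m_fe hτ _ ha hb
  · exact m_fk _ _ _
  · exact m_ft _ ha hb hne

/-- If the system has a tiling, then its formula is not acceptable. -/
theorem not_acceptable {I : Sys} (hτ : QTil I τ) : form I ∉ Acceptable := by
  intro h
  have h1 := h_imp.1 (sound (vv_mono τ) h) ∅ (h_bigAnd (m_facts hτ))
  have h2 := h_imp.1 h1 {q | q.1 = false} (h_st.2 subset_rfl)
  refine h2 (h_st.2 ?_)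
  intro q hq
  have : ¬ q.1 = false := hq
  show q.1 = true
  simpa using this

end

end Pool.Agent.U20.TT
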