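import Pool.Agent.U20.TT.Edge
import Pool.Agent.U20.TT.Model
import Pool.Agent.Q230.DLC.Src2

/-!
Folding tilings of the half plane.
-/

set_option autoImplicit false

namespace Pool.Agent.U20.TT

open Pool.Agent.R824.TT Pool.Agent.Q230.DLC

/-- pairs of squares -/
abbrev PP := Sq × Sq

/-- number of a pair -/
def en (P : PP) : ℕ := Encodable.encode P

theorem en_inj {P Q : PP} (h : en P = en Q) : P = Q := Encodable.encode_injective h

/-- all pairs -/
def prs (W : List Sq) : List PP := W.flatMap fun a => W.map fun b => (a, b)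

theorem mem_prs {W : List Sq} {P : PP} : P ∈ prs W ↔ P.1 ∈ W ∧ P.2 ∈ W := by
  simp only [prs, List.mem_flatMap, List.mem_map]
  constructor
  · rintro ⟨a, ha, b, hb, rfl⟩
    exact ⟨ha, hb⟩
  · rintro ⟨h1, h2⟩
    exact ⟨P.1, h1, P.2, h2, rfl⟩

/-- the condition in column `0` -/
def c0 (P : PP) : Prop := P.2.1 = P.1.2.2.1
/-- horizontal condition -/
def ch (R : PP × PP) : Prop := R.1.1.1 = R.2.1.2.2.1 ∧ R.2.2.1 = R.1.2.2.2.1
/-- vertical condition -/
def cv' (R : PP × PP) : Prop := R.1.1.2.1 = R.2.1.2.2.2 ∧ R.1.2.2.1 = R.2.2.2.2.2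

instance : DecidablePred c0 := fun P => inferInstanceAs (Decidable (P.2.1 = P.1.2.2.1))
instance : DecidablePred ch := fun R =>
  inferInstanceAs (Decidable (R.1.1.1 = R.2.1.2.2.1 ∧ R.2.2.1 = R.1.2.2.2.1))
instance : DecidablePred cv' := fun R =>
  inferInstanceAs (Decidable (R.1.1.2.1 = R.2.1.2.2.2 ∧ R.1.2.2.1 = R.2.2.2.2.2))

/-- pairs of pairs -/
def prs2 (W : List Sq) : List (PP × PP) := (prs W).flatMap fun a => (prs W).map fun b => (a, b)

theorem mem_prs2 {W : List Sq} {R : PP × PP} : R ∈ prs2 W ↔ R.1 ∈ prs W ∧ R.2 ∈ prs W := by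
  simp only [prs2, List.mem_flatMap, List.mem_map]
  constructor
  · rintro ⟨a, ha, b, hb, rfl⟩
    exact ⟨ha, hb⟩
  · rintro ⟨h1, h2⟩
    exact ⟨R.1, h1, R.2, h2, rfl⟩

/-- number of a pair of pairs -/
def en2 (R : PP × PP) : ℕ × ℕ := (en R.1, en R.2)

/-- the system -/
def sys (q0 : Sq) (W : List Sq) : Sys :=
  ((prs W).map en, ((prs W).filter (c0 ·)).map en, ((prs W).filter (fun P => P.1 = q0)).map en,
    ((prs2 W).filter (ch ·)).map en2, ((prs2 W).filter (cv' ·)).map en2)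

theorem fit (q0 : Sq) (W : List Sq) : Fit (sys q0 W) := by
  refine ⟨?_, ?_, ?_⟩
  · intro t ht
    obtain ⟨P, hP, rfl⟩ := List.mem_map.1 ht
    exact List.mem_map.2 ⟨P, (List.mem_filter.1 hP).1, rfl⟩
  · intro t ht
    obtain ⟨P, hP, rfl⟩ := List.mem_map.1 ht
    exact List.mem_map.2 ⟨P, (List.mem_filter.1 hP).1, rfl⟩
  · intro c p hp
    have : ∃ R ∈ prs2 W, en2 R = p := by
      cases c
      · obtain ⟨R, hR, h⟩ := List.mem_map.1 hp
        exact ⟨R, (List.mem_filter.1 hR).1, h⟩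
      · obtain ⟨R, hR, h⟩ := List.mem_map.1 hp
        exact ⟨R, (List.mem_filter.1 hR).1, h⟩
    obtain ⟨R, hR, rfl⟩ := this
    obtain ⟨h1, h2⟩ := mem_prs2.1 hR
    exact ⟨List.mem_map.2 ⟨_, h1, rfl⟩, List.mem_map.2 ⟨_, h2, rfl⟩⟩

theorem qtil_of_til {W : List Sq} {q0 : Sq} (h : Til W q0) : ∃ τ, QTil (sys q0 W) τ := by
  obtain ⟨τ, h0, hW, he, hn⟩ := h
  let P : ℕ → ℕ → PP := fun i j => (τ i j, τ (-1 - i) j)
  have hP : ∀ i j, P i j ∈ prs W := fun i j => mem_prs.2 ⟨hW _ _, hW _ _⟩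
  refine ⟨fun i j => en (P i j), ?_, ?_, ?_, ?_, ?_⟩
  · exact fun i j => List.mem_map.2 ⟨_, hP i j, rfl⟩
  · intro j
    refine List.mem_map.2 ⟨_, List.mem_filter.2 ⟨hP 0 j, ?_⟩, rfl⟩
    refine decide_eq_true ?_
    show (τ (-1 - ((0 : ℕ) : ℤ)) j).1 = (τ ((0 : ℕ) : ℤ) j).2.2.1
    have := he (-1) j
    simpa using this
  · refine List.mem_map.2 ⟨_, List.mem_filter.2 ⟨hP 0 0, ?_⟩, rfl⟩
    refine decide_eq_true ?_
    exact h0
  · intro i j
    refine List.mem_map.2 ⟨(P i j, P (i + 1) j), List.mem_filter.2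
      ⟨mem_prs2.2 ⟨hP _ _, hP _ _⟩, ?_⟩, rfl⟩
    refine decide_eq_true ⟨?_, ?_⟩
    · show (τ (i : ℤ) j).1 = (τ ((i + 1 : ℕ) : ℤ) j).2.2.1
      rw [he]
      push_cast
      rfl
    · show (τ (-1 - ((i + 1 : ℕ) : ℤ)) j).1 = (τ (-1 - (i : ℤ)) j).2.2.1
      rw [he]
      have : (-1 - ((i + 1 : ℕ) : ℤ) + 1) = -1 - (i : ℤ) := by push_cast; ring
      rw [this]
  · intro i j
    refine List.mem_map.2 ⟨(P i j, P i (j + 1)), List.mem_filter.2
      ⟨mem_prs2.2 ⟨hP _ _, hP _ _⟩, ?_⟩, rfl⟩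
    exact decide_eq_true ⟨hn _ _, hn _ _⟩

theorem til_of_qtil {W : List Sq} {q0 : Sq} {τ : ℕ → ℕ → ℕ} (h : QTil (sys q0 W) τ) :
    Til W q0 := by
  obtain ⟨h1, h2, h3, h4, h5⟩ := h
  have key : ∀ i j, ∃ P ∈ prs W, en P = τ i j := by
    intro i j
    obtain ⟨P, hP, h⟩ := List.mem_map.1 (h1 i j)
    exact ⟨P, hP, h⟩
  choose P hP hen using key
  have c1 : ∀ j, c0 (P 0 j) := by
    intro j
    obtain ⟨Q, hQ, h⟩ := List.mem_map.1 (h2 j)
    have : Q = P 0 j := en_inj (h.trans (hen 0 j).symm)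
    rw [← this]
    exact of_decide_eq_true (List.mem_filter.1 hQ).2
  have c2 : (P 0 0).1 = q0 := by
    obtain ⟨Q, hQ, h⟩ := List.mem_map.1 h3
    have : Q = P 0 0 := en_inj (h.trans (hen 0 0).symm)
    rw [← this]
    exact of_decide_eq_true (List.mem_filter.1 hQ).2
  have c3 : ∀ i j, ch (P i j, P (i + 1) j) := by
    intro i j
    obtain ⟨Q, hQ, h⟩ := List.mem_map.1 (h4 i j)
    obtain ⟨e1, e2⟩ := Prod.mk.inj h
    have e1' : Q.1 = P i j := en_inj (e1.trans (hen _ _).symm)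
    have e2' : Q.2 = P (i + 1) j := en_inj (e2.trans (hen _ _).symm)
    rw [← e1', ← e2']
    exact of_decide_eq_true (List.mem_filter.1 hQ).2
  have c4 : ∀ i j, cv' (P i j, P i (j + 1)) := by
    intro i j
    obtain ⟨Q, hQ, h⟩ := List.mem_map.1 (h5 i j)
    obtain ⟨e1, e2⟩ := Prod.mk.inj h
    have e1' : Q.1 = P i j := en_inj (e1.trans (hen _ _).symm)
    have e2' : Q.2 = P i (j + 1) := en_inj (e2.trans (hen _ _).symm)
    rw [← e1', ← e2']
    exact of_decide_eq_true (List.mem_filter.1 hQ).2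
  let σ : ℤ → ℕ → Sq := fun i j => if 0 ≤ i then (P i.toNat j).1 else (P (-1 - i).toNat j).2
  have sp : ∀ (i : ℕ) j, σ i j = (P i j).1 := by
    intro i j
    simp [σ]
  have sn : ∀ (i : ℕ) j, σ (-1 - i) j = (P i j).2 := by
    intro i j
    have h : ¬ (0 : ℤ) ≤ -1 - i := by omega
    simp only [σ, if_neg h]
    congr 2
    omega
  have cases' : ∀ i : ℤ, (∃ m : ℕ, i = m) ∨ i = -1 ∨ ∃ m : ℕ, i = -1 - ((m + 1 : ℕ) : ℤ) := by
    intro i
    rcases lt_trichotomy i (-1) with h | h | h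
    · exact Or.inr (Or.inr ⟨(-2 - i).toNat, by omega⟩)
    · exact Or.inr (Or.inl h)
    · exact Or.inl ⟨i.toNat, by omega⟩
  refine ⟨σ, ?_, ?_, ?_, ?_⟩
  · have := sp 0 0
    simp only [Nat.cast_zero] at this
    rw [this]
    exact c2
  · intro i j
    rcases cases' i with ⟨m, rfl⟩ | rfl | ⟨m, rfl⟩
    · rw [sp]; exact (mem_prs.1 (hP _ _)).1
    · have := sn 0 j
      simp only [Nat.cast_zero, sub_zero] at this
      rw [this]; exact (mem_prs.1 (hP _ _)).2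
    · rw [sn]; exact (mem_prs.1 (hP _ _)).2
  · intro i j
    rcases cases' i with ⟨m, rfl⟩ | rfl | ⟨m, rfl⟩
    · have e := sp (m + 1) j
      push_cast at e
      rw [sp, e]
      exact (c3 m j).1
    · have e := sn 0 j
      have e' := sp 0 j
      simp only [Nat.cast_zero, sub_zero] at e e'
      rw [e, show (-1 : ℤ) + 1 = 0 by norm_num, e']
      exact c1 j
    · have e : (-1 - ((m + 1 : ℕ) : ℤ) + 1) = -1 - (m : ℤ) := by push_cast; ring
      rw [sn, e, sn]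
      exact (c3 m j).2
  · intro i j
    rcases cases' i with ⟨m, rfl⟩ | rfl | ⟨m, rfl⟩
    · rw [sp, sp]
      exact (c4 m j).1
    · have e := sn 0 j
      have e' := sn 0 (j + 1)
      simp only [Nat.cast_zero, sub_zero] at e e'
      rw [e, e']
      exact (c4 0 j).2
    · rw [sn, sn]
      exact (c4 (m + 1) j).2

/-- The reduction. -/
theorem til_iff_form (W : List Sq) (q0 : Sq) : Til W q0 ↔ form (sys q0 W) ∉ Acceptable := by
  constructor
  · intro h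
    obtain ⟨τ, hτ⟩ := qtil_of_til h
    exact not_acceptable hτ
  · intro h
    obtain ⟨τ, hτ⟩ := tiling_of_not (fit q0 W) h
    exact til_of_qtil hτ

end Pool.Agent.U20.TT
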