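import Pool.Agent.U20.TT.Sem

/-!
The formula of a finite system of tiles.
-/

set_option autoImplicit false

namespace Pool.Agent.U20.TT

open Pool.Agent.R824.TT

/-- the letter with tag `t` and index `i` -/
def lt (t i : ℕ) : Fml := .var (Nat.pair t i)

/-- a point of the chain `c` -/
def pt (c : Bool) (a : ℕ) : Fml := lt c.toNat a
/-- the complement of a point of the chain `c` -/
def de (c : Bool) (a : ℕ) : Fml := lt (2 + c.toNat) a
/-- the complement of two neighbours of the chain `c` -/
def up (c : Bool) (a : ℕ) : Fml := lt (4 + c.toNat) a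
/-- the start of the chain `c` -/
def st (c : Bool) : Fml := lt 6 c.toNat
/-- the first point of the chain `c` -/
def fl (c : Bool) : Fml := lt 6 (2 + c.toNat)
/-- points which are not neighbours -/
def jk (c : Bool) : Fml := lt 6 (4 + c.toNat)
/-- a letter which never holds -/
def nP : Fml := lt 6 6
/-- the tile `k` at a point of type `(a, b)` -/
def tl (a b k : ℕ) : Fml := lt (7 + (3 * a + b)) k
/-- the same, seen from the chain `c` -/
def tg (c : Bool) (a b k : ℕ) : Fml := if c then tl b a k else tl a b k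

/-- the next type -/
def nx (a : ℕ) : ℕ := (a + 1) % 3

/-- conjunction of a list -/
def bigAnd (L : List Fml) : Fml := L.foldr .conj (.imp nP nP)

/-- disjunction of a list -/
def bigOr (J : Fml) (L : List Fml) : Fml := L.foldr .disj J

/-- A system: the tiles, those allowed in the column `0`, those allowed at the origin, the
horizontally compatible pairs and the vertically compatible pairs. -/
abbrev Sys := List ℕ × List ℕ × List ℕ × List (ℕ × ℕ) × List (ℕ × ℕ)

/-- the compatible pairs in the direction of the chain `c` -/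
def rel (I : Sys) (c : Bool) : List (ℕ × ℕ) := if c then I.2.2.2.2 else I.2.2.2.1

def f1 (c : Bool) (a : ℕ) : Fml := .imp (de c a) (fus (pt c (nx a)) (up c a))
def f2 (c : Bool) (a : ℕ) : Fml := .imp (up c a) (.imp (pt c a) (de c (nx a)))
def f3 (c : Bool) (a : ℕ) : Fml := .imp (up c a) (.imp (pt c (nx a)) (de c a))
def f4 (c : Bool) : Fml := .imp (st c) (fus (.conj (pt c 0) (fl c)) (de c 0))
def fe (I : Sys) (c : Bool) (a b : ℕ) : Fml :=
  .imp (pt c a) (.imp (pt c (nx a)) (.imp (pt (!c) b) (bigOr (jk c)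
    ((rel I c).map fun p => .conj (tg c a b p.1) (tg c (nx a) b p.2)))))
def fk (c : Bool) (a b : ℕ) : Fml := .imp (jk c) (.imp (up c a) (.neg (de (!c) b)))
def ft (c : Bool) (a b k k' : ℕ) : Fml :=
  .imp (de c a) (.imp (de (!c) b) (.neg (.conj (tg c a b k) (tg c a b k'))))
def fp (I : Sys) (a b : ℕ) : Fml :=
  .imp (pt false a) (.imp (pt true b) (bigOr nP (I.1.map fun k => tl a b k)))
def fz (I : Sys) (b : ℕ) : Fml :=
  .imp (fl false) (.imp (pt true b) (bigOr nP (I.2.1.map fun k => tl 0 b k)))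
def fo (I : Sys) : Fml :=
  .imp (fl false) (.imp (fl true) (bigOr nP (I.2.2.1.map fun k => tl 0 0 k)))
def fq (a b : ℕ) : Fml := .imp nP (.imp (de false a) (.neg (de true b)))

/-- the tests -/
def tests (I : Sys) (c : Bool) (a b : ℕ) : List Fml :=
  I.1.flatMap fun k => I.1.flatMap fun k' => if k = k' then [] else [ft c a b k k']

/-- the facts which depend on `c`, `a`, `b` -/
def fabc (I : Sys) (c : Bool) (a b : ℕ) : List Fml :=
  f1 c a :: f2 c a :: f3 c a :: fe I c a b :: fk c a b :: tests I c a b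

/-- the facts which depend on `a`, `b` -/
def fab (I : Sys) (a b : ℕ) : List Fml :=
  fp I a b :: fz I b :: fq a b :: (fabc I false a b ++ fabc I true a b)

/-- the facts -/
def facts (I : Sys) : List Fml :=
  f4 false :: f4 true :: fo I ::
    ((List.range 3).flatMap fun a => (List.range 3).flatMap fun b => fab I a b)

/-- the formula of the system -/
def form (I : Sys) : Fml := .imp (bigAnd (facts I)) (.imp (st false) (.neg (st true)))

/-- The system has a tiling of the quadrant. -/
def QTil (I : Sys) (τ : ℕ → ℕ → ℕ) : Prop :=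
  (∀ i j, τ i j ∈ I.1) ∧ (∀ j, τ 0 j ∈ I.2.1) ∧ τ 0 0 ∈ I.2.2.1 ∧
    (∀ i j, (τ i j, τ (i + 1) j) ∈ I.2.2.2.1) ∧ ∀ i j, (τ i j, τ i (j + 1)) ∈ I.2.2.2.2

theorem mem_facts {I : Sys} {f : Fml} : f ∈ facts I ↔
    f = f4 false ∨ f = f4 true ∨ f = fo I ∨ ∃ a < 3, ∃ b < 3, f ∈ fab I a b := by
  simp only [facts, List.mem_cons, List.mem_flatMap, List.mem_range]

theorem mem_fab {I : Sys} {a b : ℕ} {f : Fml} : f ∈ fab I a b ↔
    f = fp I a b ∨ f = fz I b ∨ f = fq a b ∨ ∃ c, f ∈ fabc I c a b := by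
  simp only [fab, List.mem_cons, List.mem_append]
  constructor
  · rintro (h | h | h | h | h)
    · exact Or.inl h
    · exact Or.inr (Or.inl h)
    · exact Or.inr (Or.inr (Or.inl h))
    · exact Or.inr (Or.inr (Or.inr ⟨false, h⟩))
    · exact Or.inr (Or.inr (Or.inr ⟨true, h⟩))
  · rintro (h | h | h | ⟨c, h⟩)
    · exact Or.inl h
    · exact Or.inr (Or.inl h)
    · exact Or.inr (Or.inr (Or.inl h))
    · cases c
      · exact Or.inr (Or.inr (Or.inr (Or.inl h)))
      · exact Or.inr (Or.inr (Or.inr (Or.inr h)))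

theorem mem_fabc {I : Sys} {c : Bool} {a b : ℕ} {f : Fml} : f ∈ fabc I c a b ↔
    f = f1 c a ∨ f = f2 c a ∨ f = f3 c a ∨ f = fe I c a b ∨ f = fk c a b ∨
      ∃ k ∈ I.1, ∃ k' ∈ I.1, k ≠ k' ∧ f = ft c a b k k' := by
  simp only [fabc, tests, List.mem_cons, List.mem_flatMap]
  constructor
  · rintro (h | h | h | h | h | ⟨k, hk, k', hk', h⟩)
    · exact Or.inl h
    · exact Or.inr (Or.inl h)
    · exact Or.inr (Or.inr (Or.inl h))
    · exact Or.inr (Or.inr (Or.inr (Or.inl h)))
    · exact Or.inr (Or.inr (Or.inr (Or.inr (Or.inl h))))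
    · split at h
      · simp at h
      · rename_i hne
        exact Or.inr (Or.inr (Or.inr (Or.inr (Or.inr ⟨k, hk, k', hk', hne, by simpa using h⟩))))
  · rintro (h | h | h | h | h | ⟨k, hk, k', hk', hne, h⟩)
    · exact Or.inl h
    · exact Or.inr (Or.inl h)
    · exact Or.inr (Or.inr (Or.inl h))
    · exact Or.inr (Or.inr (Or.inr (Or.inl h)))
    · exact Or.inr (Or.inr (Or.inr (Or.inr (Or.inl h))))
    · exact Or.inr (Or.inr (Or.inr (Or.inr (Or.inr ⟨k, hk, k', hk', by rw [if_neg hne]; simpa using h⟩))))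

end Pool.Agent.U20.TT
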