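import Pool.Agent.R824.TT.Transl

/-!
A semantics for acceptable formulas: formulas hold at sets, truth is inherited by subsets.
-/

set_option autoImplicit false

namespace Pool.Agent.U20.TT

open Pool.Agent.R824.TT

variable {ι : Type}

/-- A formula holds at a set `x`. -/
def Holds (v : ℕ → Set ι → Prop) : Fml → Set ι → Prop
  | .var p, x => v p x
  | .neg φ, x => ¬ Holds v φ xᶜ
  | .conj φ ψ, x => Holds v φ x ∧ Holds v ψ x
  | .disj φ ψ, x => Holds v φ x ∨ Holds v ψ x
  | .imp φ ψ, x => ∀ y, Holds v φ y → Holds v ψ (x ∪ y)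

theorem holds_mono {v : ℕ → Set ι → Prop} (hv : ∀ p x y, x ⊆ y → v p y → v p x) :
    ∀ (φ : Fml) (x y : Set ι), x ⊆ y → Holds v φ y → Holds v φ x
  | .var p, x, y, h, hy => hv p x y h hy
  | .neg φ, _, _, h, hy => fun hx =>
      hy (holds_mono hv φ _ _ (Set.compl_subset_compl.mpr h) hx)
  | .conj φ ψ, x, y, h, hy => ⟨holds_mono hv φ x y h hy.1, holds_mono hv ψ x y h hy.2⟩
  | .disj φ ψ, x, y, h, hy => hy.imp (holds_mono hv φ x y h) (holds_mono hv ψ x y h)
  | .imp _ ψ, _, _, h, hy => fun z hz =>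
      holds_mono hv ψ _ _ (Set.union_subset_union_left z h) (hy z hz)

open Classical in
/-- The point `a` as a Boolean function of the names. -/
noncomputable def kap (g : Nm → Set ι) (a : ι) : Nm → Bool := fun n => decide (a ∈ g n)

/-- An entry is realised. -/
def Ent (v : ℕ → Set ι → Prop) (g : Nm → Set ι) (k : ℕ) (e : Fml × Finset Nm) : Prop :=
  (∃ x : Set ι, Holds v e.1 x ∧ ∀ a, a ∉ x → Low (kap g a) e.2) ∧ ∀ n ∈ e.2, n.1 < k

theorem kap_true {g : Nm → Set ι} {a : ι} {n : Nm} : kap g a n = true ↔ a ∈ g n := by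
  simp [kap]

theorem kap_false {g : Nm → Set ι} {a : ι} {n : Nm} : kap g a n = false ↔ a ∉ g n := by
  simp [kap]

/-- The new assignment. -/
def upd (g : Nm → Set ι) (k : ℕ) (y z : Set ι) : Nm → Set ι :=
  fun n => if n.1 = k then (if n.2 then z else y) else g n

theorem kap_upd {g : Nm → Set ι} {k : ℕ} {y z : Set ι} {a : ι} {n : Nm} (h : n.1 ≠ k) :
    kap (upd g k y z) a n = kap g a n := by
  simp [kap, upd, h]

theorem low_congr {κ κ' : Nm → Bool} {X : Finset Nm} {k : ℕ}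
    (h : ∀ n : Nm, n.1 < k → κ' n = κ n) (hX : ∀ n ∈ X, n.1 < k) (hl : Low κ X) : Low κ' X := by
  refine ⟨?_, ?_⟩
  · obtain ⟨a, ha, h1, h2⟩ := hl.1
    exact ⟨a, ha, (h a (hX a ha)).trans h1, (h (a.1, !a.2) (hX a ha)).trans h2⟩
  · intro a ha hκ
    rw [h a (hX a ha)] at hκ
    obtain ⟨a', ha', h1, h2, h3⟩ := hl.2 a ha hκ
    exact ⟨a', ha', h1, (h a' (hX a' ha')).trans h2, (h (a'.1, !a'.2) (hX a' ha')).trans h3⟩

/-- Low is kept when a dropped name is added on top, or a name which is not alive. -/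
theorem low_new {κ : Nm → Bool} {X : Finset Nm} {k : ℕ} {b : Bool} (hX : ∀ n ∈ X, n.1 < k)
    (hf : κ (k, b) = false) (h : Low κ X ∨ κ (k, !b) = true) : Low κ (insert (k, b) X) := by
  rcases h with h | h
  · refine ⟨?_, ?_⟩
    · obtain ⟨a, ha, h1⟩ := h.1
      exact ⟨a, Finset.mem_insert_of_mem ha, h1⟩
    · intro a ha hκ
      rcases Finset.mem_insert.1 ha with rfl | ha
      · rw [hf] at hκ; simp at hκ
      · obtain ⟨a', ha', h1⟩ := h.2 a ha hκ
        exact ⟨a', Finset.mem_insert_of_mem ha', h1⟩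
  · refine ⟨⟨(k, b), Finset.mem_insert_self _ _, hf, h⟩, ?_⟩
    intro a ha hκ
    rcases Finset.mem_insert.1 ha with rfl | ha
    · rw [hf] at hκ; simp at hκ
    · exact ⟨(k, b), Finset.mem_insert_self _ _, hX a ha, hf, h⟩

theorem sound_aux {v : ℕ → Set ι → Prop} (hv : ∀ p x y, x ⊆ y → v p y → v p x) {S : Set Fml}
    (hS : ∀ φ ∈ S, Holds v φ ∅) {Γ : List (Fml × Finset Nm)} {k : ℕ} (h : Der S Γ k) :
    ∀ g : Nm → Set ι, ¬ ∀ e ∈ Γ, Ent v g k e := by
  classical
  induction h with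
  | @crash Γ k ζ X Y h₁ h₂ h =>
    intro g hg
    obtain ⟨⟨x, hx, hlx⟩, -⟩ := hg _ h₁
    obtain ⟨⟨y, hy, hly⟩, -⟩ := hg _ h₂
    by_cases hc : ∀ a, a ∈ x ∨ a ∈ y
    · exact hy (holds_mono hv ζ _ _ (fun a ha => (hc a).resolve_right ha) hx)
    · push Not at hc
      obtain ⟨a, ha, hb⟩ := hc
      exact not_low h (low_union (hlx a ha) (hly a hb))
  | @conj Γ k φ ψ X hi _ ih =>
    intro g hg
    obtain ⟨⟨x, hx, hl⟩, hb⟩ := hg _ hi
    refine ih g ?_
    intro e he
    rcases List.mem_cons.1 he with rfl | he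
    · exact ⟨⟨x, hx.1, hl⟩, hb⟩
    rcases List.mem_cons.1 he with rfl | he
    · exact ⟨⟨x, hx.2, hl⟩, hb⟩
    · exact hg e he
  | @negDisj Γ k φ ψ X hi _ ih =>
    intro g hg
    obtain ⟨⟨x, hx, hl⟩, hb⟩ := hg _ hi
    refine ih g ?_
    intro e he
    rcases List.mem_cons.1 he with rfl | he
    · exact ⟨⟨x, fun h => hx (Or.inl h), hl⟩, hb⟩
    rcases List.mem_cons.1 he with rfl | he
    · exact ⟨⟨x, fun h => hx (Or.inr h), hl⟩, hb⟩
    · exact hg e he
  | @negNeg Γ k φ X hi _ ih =>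
    intro g hg
    obtain ⟨⟨x, hx, hl⟩, hb⟩ := hg _ hi
    refine ih g ?_
    intro e he
    rcases List.mem_cons.1 he with rfl | he
    · refine ⟨⟨x, ?_, hl⟩, hb⟩
      have h1 : ¬ ¬ Holds v φ xᶜᶜ := hx
      rw [compl_compl] at h1
      exact not_not.1 h1
    · exact hg e he
  | @negConj Γ k φ ψ X hi _ _ ih₁ ih₂ =>
    intro g hg
    obtain ⟨⟨x, hx, hl⟩, hb⟩ := hg _ hi
    have hx' : ¬ (Holds v φ xᶜ ∧ Holds v ψ xᶜ) := hx
    by_cases h1 : Holds v φ xᶜ
    · refine ih₂ g ?_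
      intro e he
      rcases List.mem_cons.1 he with rfl | he
      · exact ⟨⟨x, fun h => hx' ⟨h1, h⟩, hl⟩, hb⟩
      · exact hg e he
    · refine ih₁ g ?_
      intro e he
      rcases List.mem_cons.1 he with rfl | he
      · exact ⟨⟨x, h1, hl⟩, hb⟩
      · exact hg e he
  | @disj Γ k φ ψ X hi _ _ ih₁ ih₂ =>
    intro g hg
    obtain ⟨⟨x, hx, hl⟩, hb⟩ := hg _ hi
    rcases hx with hx | hx
    · refine ih₁ g ?_
      intro e he
      rcases List.mem_cons.1 he with rfl | he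
      · exact ⟨⟨x, hx, hl⟩, hb⟩
      · exact hg e he
    · refine ih₂ g ?_
      intro e he
      rcases List.mem_cons.1 he with rfl | he
      · exact ⟨⟨x, hx, hl⟩, hb⟩
      · exact hg e he
  | @mp Γ k φ ψ X Y hi hj _ ih =>
    intro g hg
    obtain ⟨⟨x, hx, hl⟩, hb⟩ := hg _ hi
    obtain ⟨⟨y, hy, hl'⟩, hb'⟩ := hg _ hj
    refine ih g ?_
    intro e he
    rcases List.mem_cons.1 he with rfl | he
    · refine ⟨⟨y ∪ x, hy x hx, ?_⟩, ?_⟩
      · intro a ha
        simp only [Set.mem_union, not_or] at ha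
        exact low_union (hl a ha.2) (hl' a ha.1)
      · intro n hn
        rcases Finset.mem_union.1 hn with hn | hn
        · exact hb n hn
        · exact hb' n hn
    · exact hg e he
  | @counter Γ k φ ψ X hi _ ih =>
    intro g hg
    obtain ⟨⟨x, hx, hl⟩, hb⟩ := hg _ hi
    have h2 : ∃ y, Holds v φ y ∧ ¬ Holds v ψ (xᶜ ∪ y) := by
      by_contra hcon
      push Not at hcon
      exact hx hcon
    obtain ⟨y, hy1, hy2⟩ := h2
    have hold : ∀ (a : ι) (n : Nm), n.1 < k → kap (upd g k y (xᶜ ∪ y)ᶜ) a n = kap g a n :=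
      fun a n hn => kap_upd hn.ne
    have ef : ∀ a, kap (upd g k y (xᶜ ∪ y)ᶜ) a (k, false) = decide (a ∈ y) := by
      intro a; simp [kap, upd]
    have et : ∀ a, kap (upd g k y (xᶜ ∪ y)ᶜ) a (k, true) = decide (a ∈ (xᶜ ∪ y)ᶜ) := by
      intro a; simp [kap, upd]
    refine ih (upd g k y (xᶜ ∪ y)ᶜ) ?_
    intro e he
    rcases List.mem_cons.1 he with rfl | he
    · refine ⟨⟨y, hy1, ?_⟩, ?_⟩
      · intro a ha
        refine low_new hb (by rw [ef]; simp [ha]) ?_
        by_cases hax : a ∈ x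
        · right
          show kap _ a (k, true) = true
          rw [et]
          simp [hax, ha]
        · left
          exact low_congr (hold a) hb (hl a hax)
      · intro n hn
        rcases Finset.mem_insert.1 hn with rfl | hn
        · exact Nat.lt_succ_self _
        · exact (hb n hn).trans (Nat.lt_succ_self _)
    rcases List.mem_cons.1 he with rfl | he
    · refine ⟨⟨(xᶜ ∪ y)ᶜ, ?_, ?_⟩, ?_⟩
      · show ¬ Holds v ψ (xᶜ ∪ y)ᶜᶜ
        rw [compl_compl]
        exact hy2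
      · intro a ha
        refine low_new hb (by rw [et]; simpa using ha) ?_
        by_cases hax : a ∈ x
        · right
          show kap _ a (k, false) = true
          rw [ef]
          simp only [Set.mem_compl_iff, Set.mem_union, not_or, not_and, not_not] at ha
          simpa using ha hax
        · left
          exact low_congr (hold a) hb (hl a hax)
      · intro n hn
        rcases Finset.mem_insert.1 hn with rfl | hn
        · exact Nat.lt_succ_self _
        · exact (hb n hn).trans (Nat.lt_succ_self _)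
    · obtain ⟨⟨z, hz, hlz⟩, hbz⟩ := hg e he
      exact ⟨⟨z, hz, fun a ha => low_congr (hold a) hbz (hlz a ha)⟩,
        fun n hn => (hbz n hn).trans (Nat.lt_succ_self _)⟩
  | @recursive Γ k φ ψ X hi hS' _ ih =>
    intro g hg
    obtain ⟨⟨x, hx, hl⟩, hb⟩ := hg _ hi
    refine ih g ?_
    intro e he
    rcases List.mem_cons.1 he with rfl | he
    · refine ⟨⟨x, ?_, hl⟩, hb⟩
      have := hS _ hS' x hx
      rwa [Set.empty_union] at this
    · exact hg e he

/-- Acceptable formulas hold at the empty set. -/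
theorem sound {v : ℕ → Set ι → Prop} (hv : ∀ p x y, x ⊆ y → v p y → v p x) {φ : Fml}
    (hφ : φ ∈ Acceptable) : Holds v φ ∅ := by
  refine acceptable_induction (P := fun φ => Holds v φ ∅) ?_ hφ
  intro ψ hψ
  by_contra hcon
  refine sound_aux hv (fun χ hχ => hχ.2) hψ (fun _ => ∅) ?_
  intro e he
  rw [List.mem_singleton] at he
  subst he
  refine ⟨⟨Set.univ, ?_, fun a ha => absurd (Set.mem_univ a) ha⟩, by simp⟩
  show ¬ Holds v ψ (Set.univ)ᶜ
  rwa [Set.compl_univ]

end Pool.Agent.U20.TT
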