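import Pool.Agent.U20.TT.Form

/-!
If the formula of the system is not acceptable, then large squares have tilings.
-/

set_option autoImplicit false

namespace Pool.Agent.U20.TT

open Pool.Agent.R824.TT

section calculus

variable {Γ Γ' : List (Fml × Finset Nm)} {k : ℕ} {φ ψ ζ : Fml} {X Y W : Finset Nm}

/-- not closed -/
def Op (Γ : List (Fml × Finset Nm)) (k : ℕ) : Prop := ¬ Der Acceptable Γ k

theorem Op.anti (h : Op Γ' k) (hs : Γ ⊆ Γ') : Op Γ k :=
  fun hd => h (hd.mono (fun _ h => h) hs)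

/-- the entry may be added -/
def Av (Γ : List (Fml × Finset Nm)) (φ : Fml) (X : Finset Nm) : Prop :=
  ∀ k Γ', Γ ⊆ Γ' → Op Γ' k → Op ((φ, X) :: Γ') k

theorem Av.mono (h : Av Γ φ X) (hs : Γ ⊆ Γ') : Av Γ' φ X :=
  fun k Δ hΔ => h k Δ (fun _ he => hΔ (hs he))

theorem av_mem (h : (φ, X) ∈ Γ) : Av Γ φ X := by
  intro k Γ' hs ho
  refine ho.anti ?_
  intro e he
  rcases List.mem_cons.1 he with rfl | he
  · exact hs h
  · exact he

theorem Av.of_eq (h : Av Γ φ X) (he : X = Y) : Av Γ φ Y := he ▸ h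

theorem Av.mp (h : Av Γ φ X) (h' : Av Γ (.imp φ ψ) Y) : Av Γ ψ (X ∪ Y) := by
  intro k Γ' hs ho
  have h1 := h k Γ' hs ho
  have h2 := h' k _ (fun e he => List.mem_cons_of_mem _ (hs he)) h1
  have h3 : Op ((ψ, X ∪ Y) :: (.imp φ ψ, Y) :: (φ, X) :: Γ') k :=
    fun hd => h2 (Der.mp (φ := φ) (ψ := ψ) (X := X) (Y := Y)
      (List.mem_cons_of_mem _ List.mem_cons_self) List.mem_cons_self hd)
  refine h3.anti ?_
  intro e he
  rcases List.mem_cons.1 he with rfl | he
  · simp
  · simp [he]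

theorem Av.conj (h : Av Γ (.conj φ ψ) X) : Av Γ φ X ∧ Av Γ ψ X := by
  have key : ∀ k Γ', Γ ⊆ Γ' → Op Γ' k → Op ((φ, X) :: (ψ, X) :: Γ') k := by
    intro k Γ' hs ho
    have h1 := h k Γ' hs ho
    have h3 : Op ((φ, X) :: (ψ, X) :: (.conj φ ψ, X) :: Γ') k :=
      fun hd => h1 (Der.conj (by simp) hd)
    refine h3.anti ?_
    intro e he
    rcases List.mem_cons.1 he with rfl | he
    · simp
    rcases List.mem_cons.1 he with rfl | he
    · simp
    · simp [he]
  constructor
  · intro k Γ' hs ho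
    refine (key k Γ' hs ho).anti ?_
    intro e he
    rcases List.mem_cons.1 he with rfl | he
    · simp
    · simp [he]
  · intro k Γ' hs ho
    refine (key k Γ' hs ho).anti ?_
    intro e he
    rcases List.mem_cons.1 he with rfl | he
    · simp
    · simp [he]

theorem Av.bigAnd {L : List Fml} (h : Av Γ (bigAnd L) X) : ∀ f ∈ L, Av Γ f X := by
  induction L with
  | nil => simp
  | cons a L ih =>
    intro f hf
    have h' : Av Γ (.conj a (TT.bigAnd L)) X := h
    rcases List.mem_cons.1 hf with rfl | hf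
    · exact h'.conj.1
    · exact ih h'.conj.2 f hf

/-- balanced labels -/
def Bal (X : Finset Nm) : Prop := ∀ m, (m, false) ∈ X ↔ (m, true) ∈ X

theorem Op.crash (ho : Op Γ k) (h : Av Γ ζ X) (h' : Av Γ (.neg ζ) Y) (hb : Bal (X ∪ Y)) :
    False := by
  have h1 := h k Γ (fun _ h => h) ho
  have h2 := h' k _ (fun e he => List.mem_cons_of_mem _ he) h1
  exact h2 (Der.crash (ζ := ζ) (X := X) (Y := Y) (by simp) (by simp) hb)

theorem Op.nconj (ho : Op Γ k) (h : Av Γ (.neg (.conj φ ψ)) W) (h1 : Av Γ φ X)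
    (h2 : Av Γ ψ Y) (b1 : Bal (X ∪ W)) (b2 : Bal (Y ∪ W)) : False := by
  have h3 := h k Γ (fun _ h => h) ho
  refine h3 (Der.negConj (φ := φ) (ψ := ψ) (X := W) (by simp) ?_ ?_)
  · by_contra hop
    exact Op.crash hop (h1.mono (by intro e he; simp [he])) (av_mem List.mem_cons_self) b1
  · by_contra hop
    exact Op.crash hop (h2.mono (by intro e he; simp [he])) (av_mem List.mem_cons_self) b2

theorem Op.bigOr {J : Fml} {L : List Fml} : ∀ {Γ : List (Fml × Finset Nm)}, Op Γ k →
    Av Γ (bigOr J L) X → Op ((J, X) :: Γ) k ∨ ∃ f ∈ L, Op ((f, X) :: Γ) k := by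
  induction L with
  | nil => exact fun ho h => Or.inl (h k _ (fun _ h => h) ho)
  | cons a L ih =>
    intro Γ ho h
    have h' : Av Γ (.disj a (TT.bigOr J L)) X := h
    have h1 := h' k Γ (fun _ h => h) ho
    by_cases h2 : Op ((a, X) :: (.disj a (TT.bigOr J L), X) :: Γ) k
    · right
      refine ⟨a, List.mem_cons_self, h2.anti ?_⟩
      intro e he
      rcases List.mem_cons.1 he with rfl | he
      · simp
      · simp [he]
    · have h3 : Op ((TT.bigOr J L, X) :: (.disj a (TT.bigOr J L), X) :: Γ) k := by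
        intro hd
        exact h1 (Der.disj (φ := a) (ψ := TT.bigOr J L) (X := X) (by simp) (not_not.1 h2) hd)
      rcases ih h3 (av_mem List.mem_cons_self) with h4 | ⟨f, hf, h4⟩
      · left
        refine h4.anti ?_
        intro e he
        rcases List.mem_cons.1 he with rfl | he
        · simp
        · simp [he]
      · right
        refine ⟨f, List.mem_cons_of_mem _ hf, h4.anti ?_⟩
        intro e he
        rcases List.mem_cons.1 he with rfl | he
        · simp
        · simp [he]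

theorem Op.fus (ho : Op Γ k) (h : Av Γ (R824.TT.fus φ ψ) X) :
    Op ((φ, insert (k, false) X) :: (ψ, insert (k, true) X) :: Γ) (k + 1) := by
  have h1 := h k Γ (fun _ h => h) ho
  have h2 : Op ((φ, insert (k, false) X) :: (.neg (.neg ψ), insert (k, true) X) ::
      (R824.TT.fus φ ψ, X) :: Γ) (k + 1) :=
    fun hd => h1 (Der.counter (φ := φ) (ψ := .neg ψ) (X := X) List.mem_cons_self hd)
  have h3 : Op ((ψ, insert (k, true) X) :: (φ, insert (k, false) X) ::
      (.neg (.neg ψ), insert (k, true) X) :: (R824.TT.fus φ ψ, X) :: Γ) (k + 1) :=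
    fun hd => h2 (Der.negNeg (φ := ψ) (X := insert (k, true) X)
      (List.mem_cons_of_mem _ List.mem_cons_self) hd)
  refine h3.anti ?_
  intro e he
  rcases List.mem_cons.1 he with rfl | he
  · simp
  rcases List.mem_cons.1 he with rfl | he
  · simp
  · simp [he]

end calculus

section labels

/-- the label at the start of the chain `c` -/
def Bs (c : Bool) : Finset Nm := insert (1, c) {(0, true)} ∪ {(0, false)}

/-- the labels of the points and of their complements -/
def LXD (c : Bool) : ℕ → Finset Nm × Finset Nm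
  | 0 => (insert (2 + c.toNat, false) (Bs c), insert (2 + c.toNat, true) (Bs c))
  | n + 1 => (insert (2 * n + 4 + c.toNat, false) (LXD c n).2,
      (LXD c n).1 ∪ insert (2 * n + 4 + c.toNat, true) (LXD c n).2)

def LX (c : Bool) (n : ℕ) : Finset Nm := (LXD c n).1
def LD (c : Bool) (n : ℕ) : Finset Nm := (LXD c n).2
def LU (c : Bool) (n : ℕ) : Finset Nm := insert (2 * n + 4 + c.toNat, true) (LD c n)

/-- the full label -/
def LF (c : Bool) : ℕ → Finset Nm
  | 0 => Bs c
  | n + 1 => insert (2 * n + 2 + c.toNat, false) (insert (2 * n + 2 + c.toNat, true) (LF c n))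

theorem LX_succ (c : Bool) (n : ℕ) :
    LX c (n + 1) = insert (2 * n + 4 + c.toNat, false) (LD c n) := rfl

theorem LD_succ (c : Bool) (n : ℕ) : LD c (n + 1) = LX c n ∪ LU c n := rfl

theorem memA (c : Bool) (n : ℕ) (q : Nm) : (q ∈ LX c n ∨ q ∈ LD c n) ↔ q ∈ LF c (n + 1) := by
  induction n with
  | zero =>
    simp only [LX, LD, LXD, LF, Finset.mem_insert, Nat.mul_zero, Nat.zero_add]
    tauto
  | succ n ih =>
    rw [LX_succ, LD_succ]
    have e : LF c (n + 1 + 1) = insert (2 * (n + 1) + 2 + c.toNat, false)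
        (insert (2 * (n + 1) + 2 + c.toNat, true) (LF c (n + 1))) := rfl
    rw [e, show 2 * (n + 1) + 2 = 2 * n + 4 by ring]
    simp only [LU, Finset.mem_insert, Finset.mem_union]
    tauto

theorem memB (c : Bool) (n : ℕ) (q : Nm) :
    (q ∈ LX c n ∨ q ∈ LX c (n + 1) ∨ q ∈ LU c n) ↔ q ∈ LF c (n + 2) := by
  rw [← memA, LX_succ, LD_succ]
  simp only [LU, Finset.mem_insert, Finset.mem_union]
  tauto

theorem hz (c : Bool) (n : ℕ) : ((0, false) : Nm) ∈ LX c n ∧ ((0, false) : Nm) ∈ LD c n := by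
  induction n with
  | zero => simp [LX, LD, LXD, Bs]
  | succ n ih =>
    rw [LX_succ, LD_succ]
    exact ⟨Finset.mem_insert_of_mem ih.2, Finset.mem_union_left _ ih.1⟩

theorem hzF (c : Bool) (n : ℕ) : ((0, false) : Nm) ∈ LF c n := by
  induction n with
  | zero => simp [LF, Bs]
  | succ n ih => exact Finset.mem_insert_of_mem (Finset.mem_insert_of_mem ih)

theorem mem_LF (c : Bool) (n m : ℕ) (x : Bool) : (m, x) ∈ LF c n ↔
    m = 0 ∨ (m = 1 ∧ x = c) ∨ ∃ l < n, m = 2 * l + 2 + c.toNat := by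
  induction n with
  | zero =>
    simp only [LF, Bs, Finset.mem_union, Finset.mem_insert, Finset.mem_singleton, Prod.mk.injEq]
    cases x <;> simp <;> tauto
  | succ n ih =>
    simp only [LF, Finset.mem_insert, Prod.mk.injEq, ih]
    constructor
    · rintro (⟨h, _⟩ | ⟨h, _⟩ | h | h | ⟨l, h, h'⟩)
      · exact Or.inr (Or.inr ⟨n, by omega, h⟩)
      · exact Or.inr (Or.inr ⟨n, by omega, h⟩)
      · exact Or.inl h
      · exact Or.inr (Or.inl h)
      · exact Or.inr (Or.inr ⟨l, by omega, h'⟩)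
    · rintro (h | h | ⟨l, h, h'⟩)
      · exact Or.inr (Or.inr (Or.inl h))
      · exact Or.inr (Or.inr (Or.inr (Or.inl h)))
      · by_cases hl : l = n
        · subst hl
          cases x
          · exact Or.inl ⟨h', rfl⟩
          · exact Or.inr (Or.inl ⟨h', rfl⟩)
        · exact Or.inr (Or.inr (Or.inr (Or.inr ⟨l, by omega, h'⟩)))

theorem bal_of {S : Finset Nm} (c : Bool) (p q : ℕ)
    (h : ∀ x, x ∈ S ↔ (x ∈ LF c p ∨ x ∈ LF (!c) q)) : Bal S := by
  intro m
  rw [h, h]
  simp only [mem_LF]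
  generalize (∃ l < p, m = 2 * l + 2 + c.toNat) = P
  generalize (∃ l < q, m = 2 * l + 2 + (!c).toNat) = Q
  cases c <;> simp <;> tauto

end labels

/-- The state after `n` steps. -/
structure Sta (I : Sys) (Γ : List (Fml × Finset Nm)) (n : ℕ) : Prop where
  fac : ∀ f ∈ facts I, Av Γ f {(0, false)}
  pts : ∀ c, ∀ i ≤ n, Av Γ (pt c (i % 3)) (LX c i)
  des : ∀ c, ∀ i ≤ n, Av Γ (de c (i % 3)) (LD c i)
  ups : ∀ c, ∀ i < n, Av Γ (up c (i % 3)) (LU c i)
  fls : ∀ c, Av Γ (fl c) (LX c 0)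

theorem Sta.mono {I : Sys} {Γ Γ' : List (Fml × Finset Nm)} {n : ℕ} (h : Sta I Γ n)
    (hs : Γ ⊆ Γ') : Sta I Γ' n :=
  ⟨fun f hf => (h.fac f hf).mono hs, fun c i hi => (h.pts c i hi).mono hs,
    fun c i hi => (h.des c i hi).mono hs, fun c i hi => (h.ups c i hi).mono hs,
    fun c => (h.fls c).mono hs⟩

theorem nx_mod (n : ℕ) : nx (n % 3) = (n + 1) % 3 := by unfold nx; omega

section factmem

variable {I : Sys} {a b : ℕ}

theorem fm_abc (c : Bool) (ha : a < 3) (hb : b < 3) {f : Fml} (h : f ∈ fabc I c a b) :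
    f ∈ facts I :=
  mem_facts.2 (Or.inr (Or.inr (Or.inr ⟨a, ha, b, hb, mem_fab.2 (Or.inr (Or.inr (Or.inr ⟨c, h⟩)))⟩)))

theorem fm1 (c : Bool) (ha : a < 3) : f1 c a ∈ facts I :=
  fm_abc c ha (b := 0) (by omega) (mem_fabc.2 (Or.inl rfl))
theorem fm2 (c : Bool) (ha : a < 3) : f2 c a ∈ facts I :=
  fm_abc c ha (b := 0) (by omega) (mem_fabc.2 (Or.inr (Or.inl rfl)))
theorem fm3 (c : Bool) (ha : a < 3) : f3 c a ∈ facts I :=
  fm_abc c ha (b := 0) (by omega) (mem_fabc.2 (Or.inr (Or.inr (Or.inl rfl))))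
theorem fme (c : Bool) (ha : a < 3) (hb : b < 3) : fe I c a b ∈ facts I :=
  fm_abc c ha hb (mem_fabc.2 (Or.inr (Or.inr (Or.inr (Or.inl rfl)))))
theorem fmk (c : Bool) (ha : a < 3) (hb : b < 3) : fk c a b ∈ facts I :=
  fm_abc c ha hb (mem_fabc.2 (Or.inr (Or.inr (Or.inr (Or.inr (Or.inl rfl))))))
theorem fmt (c : Bool) (ha : a < 3) (hb : b < 3) {k k' : ℕ} (hk : k ∈ I.1) (hk' : k' ∈ I.1)
    (hne : k ≠ k') : ft c a b k k' ∈ facts I :=
  fm_abc c ha hb (mem_fabc.2 (Or.inr (Or.inr (Or.inr (Or.inr (Or.inr ⟨k, hk, k', hk', hne, rfl⟩))))))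
theorem fmp (ha : a < 3) (hb : b < 3) : fp I a b ∈ facts I :=
  mem_facts.2 (Or.inr (Or.inr (Or.inr ⟨a, ha, b, hb, mem_fab.2 (Or.inl rfl)⟩)))
theorem fmz (hb : b < 3) : fz I b ∈ facts I :=
  mem_facts.2 (Or.inr (Or.inr (Or.inr ⟨0, by omega, b, hb, mem_fab.2 (Or.inr (Or.inl rfl))⟩)))
theorem fmq (ha : a < 3) (hb : b < 3) : fq a b ∈ facts I :=
  mem_facts.2 (Or.inr (Or.inr (Or.inr ⟨a, ha, b, hb, mem_fab.2 (Or.inr (Or.inr (Or.inl rfl)))⟩)))
theorem fm4 (c : Bool) : f4 c ∈ facts I := by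
  cases c
  · exact mem_facts.2 (Or.inl rfl)
  · exact mem_facts.2 (Or.inr (Or.inl rfl))
theorem fmo : fo I ∈ facts I := mem_facts.2 (Or.inr (Or.inr (Or.inl rfl)))

end factmem

theorem uz {X : Finset Nm} (h : ((0, false) : Nm) ∈ X) : X ∪ {(0, false)} = X := by
  rw [Finset.union_eq_left]
  intro q hq
  rw [Finset.mem_singleton] at hq
  rwa [hq]

/-- One step for the chain `c`. -/
theorem half {I : Sys} {Γ : List (Fml × Finset Nm)} {n : ℕ} (c : Bool)
    (hf : ∀ f ∈ facts I, Av Γ f {(0, false)}) (hd : Av Γ (de c (n % 3)) (LD c n))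
    (ho : Op Γ (2 * n + 4 + c.toNat)) : ∃ Γ', Γ ⊆ Γ' ∧ Op Γ' (2 * n + 4 + c.toNat + 1) ∧
      Av Γ' (pt c ((n + 1) % 3)) (LX c (n + 1)) ∧ Av Γ' (up c (n % 3)) (LU c n) := by
  have h1 := (hd.mp (hf _ (fm1 c (Nat.mod_lt _ (by omega))))).of_eq (uz (hz c n).2)
  refine ⟨_, ?_, ho.fus h1, ?_, ?_⟩
  · intro e he
    exact List.mem_cons_of_mem _ (List.mem_cons_of_mem _ he)
  · rw [← nx_mod]
    exact av_mem List.mem_cons_self
  · exact av_mem (List.mem_cons_of_mem _ List.mem_cons_self)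

theorem start {I : Sys} (ho : Op [(.neg (form I), ∅)] 0) : ∃ Γ, Op Γ 4 ∧ Sta I Γ 0 := by
  let Γ1 : List (Fml × Finset Nm) := [(bigAnd (facts I), {(0, false)}),
    (.neg (.imp (st false) (.neg (st true))), {(0, true)}), (.neg (form I), ∅)]
  have h1 : Op Γ1 1 := fun hd => ho (Der.counter (φ := bigAnd (facts I))
    (ψ := .imp (st false) (.neg (st true))) (X := ∅) List.mem_cons_self hd)
  have h2 := h1.fus (φ := st false) (ψ := st true) (X := {(0, true)})
    (av_mem (List.mem_cons_of_mem _ List.mem_cons_self))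
  set Γ2 := (st false, insert (1, false) {(0, true)}) ::
    (st true, insert (1, true) {(0, true)}) :: Γ1 with hΓ2
  have hf2 : ∀ f ∈ facts I, Av Γ2 f {(0, false)} :=
    Av.bigAnd (av_mem (List.mem_cons_of_mem _ (List.mem_cons_of_mem _ List.mem_cons_self)))
  have s1 : Av Γ2 (R824.TT.fus (.conj (pt false 0) (fl false)) (de false 0)) (Bs false) :=
    (av_mem (List.mem_cons_self)).mp (hf2 _ (fm4 false))
  have h3 := h2.fus s1
  set Γ3 := (Fml.conj (pt false 0) (fl false), insert (1 + 1, false) (Bs false)) ::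
    (de false 0, insert (1 + 1, true) (Bs false)) :: Γ2 with hΓ3
  have s2 : Av Γ3 (R824.TT.fus (.conj (pt true 0) (fl true)) (de true 0)) (Bs true) :=
    (av_mem (List.mem_cons_of_mem _ (List.mem_cons_of_mem _ (List.mem_cons_of_mem _
      List.mem_cons_self)))).mp ((hf2 _ (fm4 true)).mono (by
        intro e he
        exact List.mem_cons_of_mem _ (List.mem_cons_of_mem _ he)))
  have h4 := h3.fus s2
  refine ⟨_, h4, ?_, ?_, ?_, ?_, ?_⟩
  · intro f hf
    exact (hf2 f hf).mono (by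
      intro e he
      exact List.mem_cons_of_mem _ (List.mem_cons_of_mem _ (List.mem_cons_of_mem _
        (List.mem_cons_of_mem _ he))))
  · intro c i hi
    obtain rfl : i = 0 := by omega
    cases c
    · exact (av_mem (List.mem_cons_of_mem _ (List.mem_cons_of_mem _ List.mem_cons_self))).conj.1
    · exact (av_mem List.mem_cons_self).conj.1
  · intro c i hi
    obtain rfl : i = 0 := by omega
    cases c
    · exact av_mem (List.mem_cons_of_mem _ (List.mem_cons_of_mem _ (List.mem_cons_of_mem _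
        List.mem_cons_self)))
    · exact av_mem (List.mem_cons_of_mem _ List.mem_cons_self)
  · intro c i hi
    omega
  · intro c
    cases c
    · exact (av_mem (List.mem_cons_of_mem _ (List.mem_cons_of_mem _ List.mem_cons_self))).conj.2
    · exact (av_mem List.mem_cons_self).conj.2

theorem chain {I : Sys} (ho : Op [(.neg (form I), ∅)] 0) (n : ℕ) :
    ∃ Γ, Op Γ (2 * n + 4) ∧ Sta I Γ n := by
  induction n with
  | zero => exact start ho
  | succ n ih =>
    obtain ⟨Γ, hΓ, hs⟩ := ih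
    obtain ⟨Γ1, s1, o1, p1, u1⟩ := half (I := I) false hs.fac (hs.des false n le_rfl) hΓ
    obtain ⟨Γ2, s2, o2, p2, u2⟩ := half (I := I) true (fun f hf => (hs.fac f hf).mono s1)
      ((hs.des true n le_rfl).mono s1) o1
    have s12 : Γ ⊆ Γ2 := fun e he => s2 (s1 he)
    have pn : ∀ c, Av Γ2 (pt c ((n + 1) % 3)) (LX c (n + 1)) := by
      intro c
      cases c
      · exact p1.mono s2
      · exact p2
    have un : ∀ c, Av Γ2 (up c (n % 3)) (LU c n) := by
      intro c
      cases c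
      · exact u1.mono s2
      · exact u2
    refine ⟨Γ2, o2, ?_, ?_, ?_, ?_, ?_⟩
    · exact fun f hf => (hs.fac f hf).mono s12
    · intro c i hi
      rcases Nat.lt_or_ge i (n + 1) with h | h
      · exact (hs.pts c i (by omega)).mono s12
      · obtain rfl : i = n + 1 := by omega
        exact pn c
    · intro c i hi
      rcases Nat.lt_or_ge i (n + 1) with h | h
      · exact (hs.des c i (by omega)).mono s12
      · obtain rfl : i = n + 1 := by omega
        have h1 := (un c).mp ((hs.fac _ (fm2 c (a := n % 3) (Nat.mod_lt _ (by omega)))).mono s12)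
        have h2 := ((hs.pts c n le_rfl).mono s12).mp h1
        rw [nx_mod] at h2
        refine h2.of_eq ?_
        rw [LD_succ, uz]
        exact Finset.mem_insert_of_mem (hz c n).2
    · intro c i hi
      rcases Nat.lt_or_ge i n with h | h
      · exact (hs.ups c i h).mono s12
      · obtain rfl : i = n := by omega
        exact un c
    · exact fun c => (hs.fls c).mono s12

end Pool.Agent.U20.TT
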